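import Pool.Agent.H739.RM.Defs

/-!
# The countable chain condition of the iteration
-/

set_option autoImplicit false

namespace Pool.Agent.H739.RM

open Pool.Agent.Helper539.SGIter Pool.Agent.Helper539.SPForcing Cardinal

namespace A0L

/-- pigeonhole -/
theorem exists_uncountable {Y C : Type*} [Countable C] {T : Set Y} (hT : ¬ T.Countable)
    (f : Y → C) : ∃ c, ¬ {y | y ∈ T ∧ f y = c}.Countable := by
  by_contra hcon
  push Not at hcon
  apply hT
  have h1 : T = ⋃ c, {y | y ∈ T ∧ f y = c} := by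
    ext y
    simp
  rw [h1]
  exact Set.countable_iUnion hcon

theorem agree_aux {I Y V : Type*} [Countable V] (c : Y → I → V) (n : ℕ) :
    ∀ (T : Set Y) (S : Y → Finset I), ¬ T.Countable → (∀ y ∈ T, (S y).card = n) →
    ∃ y ∈ T, ∃ y' ∈ T, y ≠ y' ∧ ∀ i ∈ S y, i ∈ S y' → c y i = c y' i := by
  classical
  induction n with
  | zero =>
    intro T S hT hS
    have h1 : ¬ T.Subsingleton := fun h => hT h.countable
    rw [Set.not_subsingleton_iff] at h1
    obtain ⟨y, hy, y', hy', hne⟩ := h1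
    refine ⟨y, hy, y', hy', hne, fun i hi => ?_⟩
    have := hS y hy
    rw [Finset.card_eq_zero] at this
    rw [this] at hi
    exact absurd hi (Finset.notMem_empty i)
  | succ n ih =>
    intro T S hT hS
    by_cases hcase : ∃ i, ¬ {y | y ∈ T ∧ i ∈ S y}.Countable
    · obtain ⟨i, hi⟩ := hcase
      obtain ⟨v, hv⟩ := exists_uncountable hi (fun y => c y i)
      obtain ⟨y, hy, y', hy', hne, hag⟩ := ih _ (fun y => (S y).erase i) hv (by
        intro y hy
        rw [Finset.card_erase_of_mem hy.1.2, hS y hy.1.1]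
        rfl)
      refine ⟨y, hy.1.1, y', hy'.1.1, hne, fun j hj hj' => ?_⟩
      by_cases hji : j = i
      · subst hji
        rw [hy.2, hy'.2]
      · exact hag j (Finset.mem_erase.mpr ⟨hji, hj⟩) (Finset.mem_erase.mpr ⟨hji, hj'⟩)
    · push Not at hcase
      have hne : T.Nonempty := by
        rw [Set.nonempty_iff_ne_empty]
        rintro rfl
        exact hT Set.countable_empty
      obtain ⟨y0, hy0⟩ := hne
      have hsm : ({y0} ∪ ⋃ i ∈ S y0, {y | y ∈ T ∧ i ∈ S y} : Set Y).Countable := by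
        refine (Set.countable_singleton y0).union ?_
        exact (S y0).countable_toSet.biUnion fun i _ => hcase i
      have h3 : ¬ T ⊆ ({y0} ∪ ⋃ i ∈ S y0, {y | y ∈ T ∧ i ∈ S y} : Set Y) := fun h =>
        hT (hsm.mono h)
      rw [Set.not_subset] at h3
      obtain ⟨y, hy, hy2⟩ := h3
      refine ⟨y0, hy0, y, hy, ?_, fun i hi hi' => ?_⟩
      · rintro rfl
        exact hy2 (Or.inl rfl)
      · exfalso
        apply hy2
        right
        rw [Set.mem_iUnion₂]
        exact ⟨i, hi, hy, hi'⟩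

/-- Among uncountably many finite functions with countably many values, two different ones agree
on the common part of their domains. -/
theorem exists_agree {I Y V : Type*} [Countable V] (T : Set Y) (hT : ¬ T.Countable)
    (S : Y → Set I) (hS : ∀ y, (S y).Finite) (c : Y → I → V) :
    ∃ y ∈ T, ∃ y' ∈ T, y ≠ y' ∧ ∀ i ∈ S y, i ∈ S y' → c y i = c y' i := by
  classical
  obtain ⟨n, hn⟩ := exists_uncountable hT (fun y => (hS y).toFinset.card)
  obtain ⟨y, hy, y', hy', hne, hag⟩ := agree_aux c n _ (fun y => (hS y).toFinset) hn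
    (fun y hy => hy.2)
  refine ⟨y, hy.1, y', hy'.1, hne, fun i hi hi' => hag i ?_ ?_⟩
  · exact (hS y).mem_toFinset.mpr hi
  · exact (hS y').mem_toFinset.mpr hi'

end A0L

/-- TASK A0 (countable chain condition). -/
theorem exists_cc {J : Type} [LinearOrder J] [WellFoundedLT J] {R0 : J → Set (Pr K0 J)} (ξ : J)
    (D : Set (Rep K0 J)) (hD : D ⊆ Vd R0 ξ) :
    ∃ C ⊆ D, C.Countable ∧ ∀ q ∈ D, ∃ r ∈ C, ∃ s ∈ Vd R0 ξ, s ≤ q ∧ s ≤ r := by
  classical
  obtain ⟨C, hC⟩ := zorn_subset {C : Set (Rep K0 J) | C ⊆ D ∧ ∀ r ∈ C, ∀ r' ∈ C, r ≠ r' →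
    ¬ ∃ s ∈ Vd R0 ξ, s ≤ r ∧ s ≤ r'} (by
      intro c hc hchain
      refine ⟨⋃₀ c, ⟨Set.sUnion_subset fun t ht => (hc ht).1, ?_⟩, fun t ht =>
        Set.subset_sUnion_of_mem ht⟩
      rintro r ⟨t, ht, hrt⟩ r' ⟨t', ht', hrt'⟩ hne
      rcases hchain.total ht ht' with h | h
      · exact (hc ht').2 r (h hrt) r' hrt' hne
      · exact (hc ht).2 r hrt r' (h hrt') hne)
  obtain ⟨⟨hCD, hCa⟩, hCm⟩ := hC
  refine ⟨C, hCD, ?_, fun q hq => ?_⟩
  · by_contra hun
    obtain ⟨r, hr, r', hr', hne, hag⟩ := A0L.exists_agree C hun (fun r => supp r) (fun r => r.fin)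
      (fun r => r.st)
    exact hCa r hr r' hr' hne (compat_of_stems (hD (hCD hr)) (hD (hCD hr')) (fun a => a.elim) hag)
  · by_cases hqC : q ∈ C
    · exact ⟨q, hqC, q, hD hq, le_refl q, le_refl q⟩
    · by_contra hcon
      push Not at hcon
      have h1 : insert q C ∈ {C : Set (Rep K0 J) | C ⊆ D ∧ ∀ r ∈ C, ∀ r' ∈ C, r ≠ r' →
          ¬ ∃ s ∈ Vd R0 ξ, s ≤ r ∧ s ≤ r'} := by
        refine ⟨Set.insert_subset hq hCD, ?_⟩
        rintro r (rfl | hr) r' (rfl | hr') hne ⟨s, hs, hs1, hs2⟩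
        · exact hne rfl
        · exact hcon r' hr' s hs hs1 hs2
        · exact hcon r hr s hs hs2 hs1
        · exact hCa r hr r' hr' hne ⟨s, hs, hs1, hs2⟩
      exact hqC (hCm h1 (Set.subset_insert q C) (Set.mem_insert q C))

end Pool.Agent.H739.RM
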