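import Mathlib
import Pool.Graph.R_seed8.Helper539.SGIter
import Pool.Graph.R_seed8.Helper539.SPForcing

/-!
# A finite support iteration which adds a tower generating an ultrafilter

The coordinates in the set `tw` add a set of natural numbers almost contained in all members of an
ultrafilter of the intermediate extension (Laver-Prikry forcing: a stem, and finitely many promises
which give for each node a member of the ultrafilter); the other coordinates add Cohen reals.
Names for sets of natural numbers are sequences of open sets of points (`NN`: unions of countably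
many basic sets).
-/

set_option autoImplicit false

namespace Pool.Agent.H739.RM

open Pool.Agent.Helper539.SGIter Pool.Agent.Helper539.SPForcing Cardinal

/-- there is no collapsing part -/
abbrev K0 : Type := PEmpty.{1}

variable {J : Type} [LinearOrder J]

/-- the name of the set of the values of the generic sequence at `β` -/
def gen (β : J) (m : ℕ) : Set (Om K0 J) := {w | ∃ n, w.2 β n = m}

/-- unions of countably many basic sets -/
def Nice (B : Set (Rep K0 J)) (ξ : J) (U : Set (Om K0 J)) : Prop :=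
  ∃ C : Set (Rep K0 J), C ⊆ B ∧ C.Countable ∧ U = ⋃ q ∈ C, bs q ξ

/-- names for sets of natural numbers at stage `ξ` -/
def NN (B : Set (Rep K0 J)) (ξ : J) : Set (ℕ → Set (Om K0 J)) := {A | ∀ n, Nice B ξ (A n)}

/-- finite intersections are forced to be infinite -/
def FIP (B : Set (Rep K0 J)) (ξ : J) (𝒰 : Set (ℕ → Set (Om K0 J))) : Prop :=
  ∀ F : Finset (ℕ → Set (Om K0 J)), (∀ A ∈ F, A ∈ 𝒰) → ∀ q ∈ B, ∀ N : ℕ,
    ∃ q' ∈ B, q' ≤ q ∧ ∃ m, N ≤ m ∧ ∀ A ∈ F, bs q' ξ ⊆ A m

/-- `𝒰` is a maximal set of names with `FIP` which includes `G` -/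
def IsMaxU (B : Set (Rep K0 J)) (ξ : J) (G 𝒰 : Set (ℕ → Set (Om K0 J))) : Prop :=
  G ⊆ 𝒰 ∧ 𝒰 ⊆ NN B ξ ∧ FIP B ξ 𝒰 ∧ ∀ A ∈ NN B ξ, FIP B ξ (insert A 𝒰) → A ∈ 𝒰

open Classical in
/-- a name for an ultrafilter -/
noncomputable def UU (B : Set (Rep K0 J)) (ξ : J) (G : Set (ℕ → Set (Om K0 J))) :
    Set (ℕ → Set (Om K0 J)) :=
  if h : ∃ 𝒰, IsMaxU B ξ G 𝒰 then h.choose else ∅

/-- the generic sets of the earlier coordinates in `tw` -/
def Gb (tw : Set J) (ξ : J) : Set (ℕ → Set (Om K0 J)) := {A | ∃ β ∈ tw, β < ξ ∧ A = gen β}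

/-- the admissible promises at stage `ξ` -/
def RStep (tw : Set J) (B : Set (Rep K0 J)) (ξ : J) : Set (Pr K0 J) :=
  {R | ξ ∈ tw ∧ ∀ s, R s ∈ UU B ξ (Gb tw ξ)}

variable [WellFoundedLT J]

/-- the admissible promises, by recursion -/
noncomputable def RR (tw : Set J) : J → Set (Pr K0 J) :=
  WellFoundedLT.fix (motive := fun _ : J => Set (Pr K0 J)) fun ξ f =>
    RStep tw {r | (∀ η, ∀ h : η < ξ, ∀ R ∈ r.pr η, R ∈ f η h) ∧ Below r ξ} ξ

theorem RR_eq (tw : Set J) (ξ : J) : RR tw ξ = RStep tw (Vd (RR tw) ξ) ξ := by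
  rw [RR, WellFoundedLT.fix_eq]
  congr 1
  ext r
  constructor
  · rintro ⟨h1, h2⟩
    refine ⟨fun η R hR => ?_, h2⟩
    by_cases hη : η < ξ
    · exact h1 η hη R hR
    · rw [(h2 η (not_lt.1 hη)).2] at hR
      exact absurd hR (Finset.notMem_empty R)
  · rintro ⟨h1, h2⟩
    exact ⟨fun η _ R hR => h1 η R hR, h2⟩

/-- the forcing notion: the iteration below `τ` -/
abbrev PP (tw : Set J) (τ : J) : Type := {r : Rep K0 J // r ∈ Vd (RR tw) τ}

/-! ### The sentences -/

section sentences

variable {P : Type} [Preorder P]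

/-- `x` is almost contained in `y` -/
def AlmSub (x y : ℕ → Set P) : Set P :=
  fex fun N : ℕ => fall fun n : ℕ => fimp (fand (fground (N ≤ n)) (meets (x n))) (meets (y n))

/-- `x` is almost disjoint from `y` -/
def AlmDisj (x y : ℕ → Set P) : Set P :=
  fex fun N : ℕ => fall fun n : ℕ =>
    fimp (fand (fground (N ≤ n)) (meets (x n))) (fnot (meets (y n)))

/-- `T` is a tower of infinite sets, and every set of natural numbers almost contains some `T a` or
is almost disjoint from some `T a` -/
def FTower {W : Type} [LinearOrder W] (T : W → ℕ → Set P) : Set P :=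
  fand (fall fun a : W => fall fun b : W => fimp (fground (a < b)) (AlmSub (T b) (T a)))
    (fand (fall fun a : W => InfSet (T a))
      (fall fun X : ℕ → Set P => fex fun a : W => for' (AlmSub (T a) X) (AlmDisj (T a) X)))

/-- the functions named by `D a` dominate all functions -/
def FDom {W : Type} (D : W → ℕ → ℕ → Set P) : Set P :=
  fand (fall fun a : W => IsFun (D a))
    (fall fun F : ℕ → ℕ → Set P => fimp (IsFun F) (fex fun a : W => fex fun N : ℕ =>
      fall fun n : ℕ => fall fun k : ℕ => fall fun m : ℕ =>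
        fimp (fand (fground (N ≤ n)) (fand (meets (F n k)) (meets (D a n m)))) (fground (k ≤ m))))

/-- the sets named by `c x` are different -/
def FReals {L : Type} (c : L → ℕ → Set P) : Set P :=
  fall fun x : L => fall fun y : L => fimp (fground (x ≠ y)) (fex fun n : ℕ =>
    for' (fand (meets (c x n)) (fnot (meets (c y n))))
      (fand (fnot (meets (c x n))) (meets (c y n))))

/-- every subset of `W` is one of the sets named by `E x` -/
def FList {W L : Type} (E : L → W → Set P) : Set P :=
  fall fun X : W → Set P => fex fun x : L => fall fun a : W =>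
    fand (fimp (meets (X a)) (meets (E x a))) (fimp (meets (E x a)) (meets (X a)))

/-- the principle, as a sentence of the forcing language -/
def FPrinciple (P : Type) [Preorder P] (W L : Type) [LinearOrder W] : Set P :=
  fand (fex fun T : W → ℕ → Set P => FTower T)
    (fand (fex fun D : W → ℕ → ℕ → Set P => FDom D)
      (fand (fex fun c : L → ℕ → Set P => FReals c) (fex fun E : L → W → Set P => FList E)))

/-- the principle: there is a tower `T a`, `a ∈ W`, of infinite sets of natural numbers which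
generates an ultrafilter; there is a dominating family `D a`, `a ∈ W`; there are different sets
`c x`, `x ∈ L`, of natural numbers; and `L` can be mapped onto the family of all subsets of `W` -/
def Principle (W L : Type) [LinearOrder W] : Prop :=
  (∃ T : W → ℕ → Prop, (∀ a b, a < b → ∃ N, ∀ n, N ≤ n ∧ T b n → T a n) ∧
    (∀ a, ∀ N : ℕ, ∃ k, N ≤ k ∧ T a k) ∧
    ∀ X : ℕ → Prop, ∃ a, (∃ N, ∀ n, N ≤ n ∧ T a n → X n) ∨ ∃ N, ∀ n, N ≤ n ∧ T a n → ¬ X n) ∧
  (∃ D : W → ℕ → ℕ, ∀ F : ℕ → ℕ, ∃ a N, ∀ n, N ≤ n → F n ≤ D a n) ∧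
  (∃ c : L → ℕ → Prop, ∀ x y, x ≠ y → ∃ n, (c x n ∧ ¬ c y n) ∨ (¬ c x n ∧ c y n)) ∧
  ∃ E : L → W → Prop, ∀ X : W → Prop, ∃ x, ∀ a, (X a → E x a) ∧ (E x a → X a)

end sentences

end Pool.Agent.H739.RM
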