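import Pool.Agent.H739.RM.Tower

/-!
# The generic sequences form a dominating family
-/

set_option autoImplicit false

namespace Pool.Agent.H739.RM

open Pool.Agent.Helper539.SGIter Pool.Agent.Helper539.SPForcing Cardinal

variable {J : Type} [LinearOrder J] [WellFoundedLT J] {tw : Set J} {τ : J}
  {W : Type} [LinearOrder W] {ι : W → J}

theorem dd_fun (hτ : ∀ a, ι a < τ) (a : W) (p : PP tw τ) : p ∈ IsFun (DD tw τ ι a) := by
  refine ⟨fun n => mem_fex.2 fun q _ => ?_, fun n m m' => mem_fimp.2 ?_⟩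
  · obtain ⟨r, hr, hle, hlen⟩ := exists_long (fun ζ _ => good tw ζ) q.2 (hτ a) (n + 1)
    refine ⟨⟨r, hr⟩, hle, (r.st (ι a))[n], meets_of_mem ?_⟩
    show (r.st (ι a))[n]? = some _
    exact List.getElem?_eq_getElem _
  · rintro q _ ⟨h1, h2⟩
    obtain ⟨r, hr, h3⟩ := DD_of_meets h1
    obtain ⟨r', hr', h4⟩ := DD_of_meets (down_meets _ _ h2 _ hr)
    refine ⟨r', hr'.trans hr, ?_⟩
    obtain ⟨l, hl⟩ := le_st (show r'.1 ≤ r.1 from hr') (ι a)
    rw [← hl, List.getElem?_append_left (List.getElem?_eq_some_iff.1 h3).1, h3] at h4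
    exact Option.some.inj h4

theorem dd_dom (hcc : CC tw) (hτ : ∀ a, ι a < τ) (ht : ∀ a, ι a ∈ tw)
    (hcof : ∀ S : Set J, S.Countable → S ⊆ Set.Iio τ → ∃ a, ∀ β ∈ S, β < ι a)
    (F : ℕ → ℕ → Set (PP tw τ)) (q : PP tw τ) (hq : q ∈ IsFun F) :
    ∃ r ≤ q, ∃ a, r ∈ fex fun N : ℕ =>
      fall fun n : ℕ => fall fun k : ℕ => fall fun m : ℕ =>
        fimp (fand (fground (N ≤ n)) (fand (meets (F n k)) (meets (DD tw τ ι a n m))))
          (fground (k ≤ m)) := by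
  classical
  let X' : ℕ → Set (Rep K0 J) := fun n =>
    {r | ∃ h : r ∈ Vd (RR tw) τ, ∃ k, (⟨r, h⟩ : PP tw τ) ∈ meets (F n k)}
  have hX' : ∀ n, X' n ⊆ Vd (RR tw) τ := fun n r hr => hr.1
  choose C hCX hCc hCd using fun n => hcc τ (X' n) (hX' n)
  obtain ⟨a, ha⟩ := exists_capture hcof (⋃ n, C n) (Set.countable_iUnion hCc)
    (Set.iUnion_subset fun n => (hCX n).trans (hX' n))
  have hCa : ∀ n, C n ⊆ Vd (RR tw) (ι a) := fun n => (Set.subset_iUnion C n).trans ha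
  set β := ι a with hβ
  have hβτ : β < τ := hτ a
  obtain ⟨E, hED, hEc, hEd⟩ := hcc β
    {r | r ∈ Vd (RR tw) β ∧ ¬ ∃ s ∈ Vd (RR tw) β, s ≤ res q.1 β ∧ s ≤ r} (fun r hr => hr.1)
  -- the bound given by the value
  let C' : ℕ → ℕ → Set (Rep K0 J) := fun n m =>
    {r | r ∈ C n ∧ ∃ h : r ∈ Vd (RR tw) τ, ∃ k, k ≤ m ∧ (⟨r, h⟩ : PP tw τ) ∈ meets (F n k)}
  have hC'C : ∀ n m, C' n m ⊆ C n := fun n m r hr => hr.1
  let R : Pr K0 J := fun s m => (⋃ r ∈ C' s.length m, bs r β) ∪ ⋃ e ∈ E, bs e β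
  have hRU : ∀ s, R s ∈ Uf tw β := by
    intro s
    refine mem_uf (fun m => nice_union ((hC'C _ m).trans (hCa _)) ((hCc _).mono (hC'C _ m))
      (fun e he => (hED he).1) hEc) fun q0 hq0 => ?_
    by_cases hcomp : ∃ s ∈ Vd (RR tw) β, s ≤ res q.1 β ∧ s ≤ q0
    · obtain ⟨q1, hq1, h1, h2⟩ := hcomp
      let g : PP tw τ := ⟨glue q1 q.1 β, glue_mem hq1 q.2 hβτ.le⟩
      have hgq : g ≤ q := glue_le h1
      obtain ⟨t, ht1, k, hk⟩ := IsFun.total (down_IsFun F _ hq _ hgq) s.length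
      obtain ⟨r, hr, u, hu, h3, h4⟩ := hCd s.length t.1 ⟨t.2, k, hk⟩
      obtain ⟨hrV, k', hk'⟩ := hCX s.length hr
      refine ⟨res u β, res_mem hu.1 β, ?_, k', fun m hm => ?_⟩
      · refine le_trans (res_le ?_ hq1.2) h2
        exact h3.trans ((show t.1 ≤ g.1 from ht1).trans (glue_le_left hq1.2))
      · rw [bs_res le_rfl]
        refine (bs_le h4 β).trans (fun w hw => Or.inl ?_)
        exact Set.mem_biUnion (show r ∈ C' s.length m from ⟨hr, hrV, k', hm, hk'⟩) hw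
    · obtain ⟨e, he, u, hu, h3, h4⟩ := hEd q0 ⟨hq0, hcomp⟩
      refine ⟨u, hu, h3, 0, fun m _ w hw => Or.inr ?_⟩
      exact Set.mem_biUnion he (bs_le h4 β hw)
  let q1 : PP tw τ := ⟨addP q.1 β {R}, addP_mem q.2 hβτ (by
    intro R' hR'
    rw [Finset.mem_singleton.1 hR']
    exact mem_RR.2 ⟨ht a, hRU⟩)⟩
  have hq1 : q1.1 ≤ q.1 := addP_le _ _ _
  refine ⟨q1, hq1, a, ?_⟩
  refine mem_fex_of_mem (q.1.st β).length
    (down_fall fun _ => down_fall fun _ => down_fall fun _ => down_fimp _ _)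
    fun n k m => mem_fimp.2 ?_
  rintro s hs ⟨hn, hsF, hsD⟩
  have hn : (q.1.st β).length ≤ n := hn
  obtain ⟨r, hr, hnr⟩ := DD_of_meets hsD
  have hrq : r.1 ≤ q1.1 := le_trans hr hs
  obtain ⟨hlt, hget⟩ := List.getElem?_eq_some_iff.1 hnr
  have hl : ((r.1.st β).take n) ++ [m] <+: r.1.st β := by
    rw [← hget, List.take_concat_get']
    exact List.take_prefix _ _
  have hlen : ((r.1.st β).take n).length = n := by
    rw [List.length_take]
    exact min_eq_left hlt.le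
  have h1 : bs r.1 β ⊆ R ((r.1.st β).take n) m :=
    le_new hrq ((addP_pr_self q.1 β _).2 (Finset.mem_singleton_self _)) hl (by
      rw [hlen]
      exact hn)
  have h2 := cover_of_union q.2.1 r.2.1 (hrq.trans hq1) (fun e he => hED he) h1
  rw [hlen] at h2
  obtain ⟨u, hu, h3, r0, hr0, h4⟩ := dense_of_cover hβτ.le r.2 ((hC'C n m).trans (hCa n)) h2
  obtain ⟨_, hr0V, k', hk', hk'F⟩ := hr0
  let v : PP tw τ := ⟨u, hu⟩
  have hvr : v ≤ r := h3
  have e : k = k' := IsFun.unique (down_IsFun F _ hq v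
      (hvr.trans ((show r ≤ q1 from hrq).trans (show q1 ≤ q from hq1))))
    (down_meets _ _ hsF _ (hvr.trans hr)) (down_meets _ _ hk'F v (show v.1 ≤ r0 from h4))
  exact ⟨v, hvr.trans hr, show k ≤ m by rw [e]; exact hk'⟩

theorem dom (hcc : CC tw) (hτ : ∀ a, ι a < τ) (ht : ∀ a, ι a ∈ tw)
    (hcof : ∀ S : Set J, S.Countable → S ⊆ Set.Iio τ → ∃ a, ∀ β ∈ S, β < ι a) (p : PP tw τ) :
    p ∈ FDom (DD tw τ ι) := by
  refine ⟨fun a => dd_fun hτ a p, fun F => mem_fimp.2 fun q _ hq => ⟨q, le_rfl, ?_⟩⟩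
  refine mem_fex.2 fun r hr => ?_
  exact dd_dom hcc hτ ht hcof F r (down_IsFun F _ hq _ hr)

end Pool.Agent.H739.RM
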