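import Pool.Agent.H739.RM.Defs

/-!
# The iteration is good at every stage, and the names of the ultrafilters exist
-/

set_option autoImplicit false

namespace Pool.Agent.H739.RM

open Pool.Agent.Helper539.SGIter Pool.Agent.Helper539.SPForcing Cardinal

variable {J : Type} [LinearOrder J]

/-! ### Simple conditions -/

open Classical in
/-- the condition with the stem `s` at `β` and nothing else -/
noncomputable def sgl (β : J) (s : List ℕ) : Rep K0 J where
  c _ := []
  st := Function.update (fun _ => []) β s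
  pr _ := ∅
  finc := by simp
  fin := (Set.finite_singleton β).subset fun ζ hζ => by
    by_contra h
    have h' : ζ ≠ β := h
    simp [Function.update_of_ne h'] at hζ

theorem sgl_mem (RR' : J → Set (Pr K0 J)) {β ξ : J} (h : β < ξ) (s : List ℕ) :
    sgl β s ∈ Vd RR' ξ :=
  ⟨fun _ _ hR => absurd hR (Finset.notMem_empty _), fun η hη => by
    have h' : η ≠ β := (h.trans_le hη).ne'
    exact ⟨by simp [sgl, Function.update_of_ne h'], rfl⟩⟩

theorem mem_bs_sgl {β ξ : J} (h : β < ξ) (s : List ℕ) {w : Om K0 J} :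
    w ∈ bs (sgl β s) ξ ↔ s = pre (w.2 β) s.length := by
  constructor
  · intro hw
    have := (hw.2 β h).1
    simpa [sgl] using this
  · intro hw
    refine ⟨fun a => a.elim, fun η hη => ⟨?_, fun R hR => absurd hR (Finset.notMem_empty _)⟩⟩
    by_cases h' : η = β
    · subst h'
      simpa [sgl] using hw
    · simp [sgl, Function.update_of_ne h']

open Classical in
/-- `r` with the promises in `F` added at `β` -/
noncomputable def addP (r : Rep K0 J) (β : J) (F : Finset (Pr K0 J)) : Rep K0 J where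
  c := r.c
  st := r.st
  pr := Function.update r.pr β (r.pr β ∪ F)
  finc := r.finc
  fin := by
    refine (r.fin.union (Set.finite_singleton β)).subset fun ζ hζ => ?_
    by_cases h : ζ = β
    · right; exact h
    · left; simpa [Function.update_of_ne h] using hζ

theorem addP_pr_self (r : Rep K0 J) (β : J) (F : Finset (Pr K0 J)) :
    r.pr β ⊆ (addP r β F).pr β ∧ F ⊆ (addP r β F).pr β := by
  classical
  simp only [addP, Function.update_self]
  constructor
  · intro R hR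
    exact Finset.mem_union_left _ hR
  · intro R hR
    exact Finset.mem_union_right _ hR

theorem addP_pr_ne (r : Rep K0 J) {β ζ : J} (F : Finset (Pr K0 J)) (h : ζ ≠ β) :
    (addP r β F).pr ζ = r.pr ζ := by simp [addP, Function.update_of_ne h]

theorem addP_st (r : Rep K0 J) (β : J) (F : Finset (Pr K0 J)) : (addP r β F).st = r.st := rfl

theorem addP_le (r : Rep K0 J) (β : J) (F : Finset (Pr K0 J)) : addP r β F ≤ r :=
  ⟨fun a => a.elim, fun η => by
    refine ⟨List.prefix_refl _, ?_, fun _ _ _ _ h h' => (no_new h h').elim⟩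
    by_cases h : η = β
    · subst h
      exact (addP_pr_self r η F).1
    · rw [addP_pr_ne r F h]⟩

theorem addP_mem {RR' : J → Set (Pr K0 J)} {r : Rep K0 J} {β τ : J} {F : Finset (Pr K0 J)}
    (hr : r ∈ Vd RR' τ) (hβ : β < τ) (hF : ∀ R ∈ F, R ∈ RR' β) : addP r β F ∈ Vd RR' τ := by
  classical
  refine ⟨fun η R hR => ?_, fun η hη => ⟨(hr.2 η hη).1, ?_⟩⟩
  · by_cases h : η = β
    · subst h
      simp only [addP, Function.update_self, Finset.mem_union] at hR
      rcases hR with h | h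
      · exact hr.1 _ R h
      · exact hF R h
    · rw [addP_pr_ne r F h] at hR
      exact hr.1 η R hR
  · rw [addP_pr_ne r F (hβ.trans_le hη).ne']
    exact (hr.2 η hη).2

/-! ### Existence of the names of the ultrafilters -/

theorem exists_isMaxU {B : Set (Rep K0 J)} {ξ : J} {G : Set (ℕ → Set (Om K0 J))}
    (hG : G ⊆ NN B ξ) (hF : FIP B ξ G) : ∃ 𝒰, IsMaxU B ξ G 𝒰 := by
  classical
  have key : ∀ c ⊆ {𝒰 : Set (ℕ → Set (Om K0 J)) | 𝒰 ⊆ NN B ξ ∧ FIP B ξ 𝒰},
      IsChain (· ⊆ ·) c → c.Nonempty →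
      ∃ ub ∈ {𝒰 : Set (ℕ → Set (Om K0 J)) | 𝒰 ⊆ NN B ξ ∧ FIP B ξ 𝒰}, ∀ s ∈ c, s ⊆ ub := by
    intro c hc hch hne
    refine ⟨⋃₀ c, ⟨Set.sUnion_subset fun s hs => (hc hs).1, ?_⟩,
      fun s hs => Set.subset_sUnion_of_mem hs⟩
    intro F hF
    have hex : ∃ s ∈ c, ∀ A ∈ F, A ∈ s := by
      induction F using Finset.induction_on with
      | empty =>
        obtain ⟨s, hs⟩ := hne
        exact ⟨s, hs, fun A hA => absurd hA (Finset.notMem_empty A)⟩
      | insert a F _ ih =>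
        obtain ⟨s, hs, h1⟩ := ih fun A hA => hF A (Finset.mem_insert_of_mem hA)
        obtain ⟨t, ht, h2⟩ := hF a (Finset.mem_insert_self a F)
        rcases hch.total hs ht with h | h
        · refine ⟨t, ht, fun A hA => ?_⟩
          rcases Finset.mem_insert.1 hA with rfl | hA
          · exact h2
          · exact h (h1 A hA)
        · refine ⟨s, hs, fun A hA => ?_⟩
          rcases Finset.mem_insert.1 hA with rfl | hA
          · exact h h2
          · exact h1 A hA
    obtain ⟨s, hs, h1⟩ := hex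
    exact (hc hs).2 F h1
  obtain ⟨m, hGm, hm⟩ := zorn_subset_nonempty _ key G ⟨hG, hF⟩
  refine ⟨m, hGm, hm.prop.1, hm.prop.2, fun A hA h => ?_⟩
  have h1 : insert A m ∈ {𝒰 | 𝒰 ⊆ NN B ξ ∧ FIP B ξ 𝒰} :=
    ⟨Set.insert_subset hA hm.prop.1, h⟩
  exact hm.le_of_ge h1 (Set.subset_insert A m) (Set.mem_insert A m)

theorem isMaxU_UU {B : Set (Rep K0 J)} {ξ : J} {G : Set (ℕ → Set (Om K0 J))}
    (h : ∃ 𝒰, IsMaxU B ξ G 𝒰) : IsMaxU B ξ G (UU B ξ G) := by
  unfold UU
  rw [dif_pos h]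
  exact h.choose_spec

theorem nice_gen (RR' : J → Set (Pr K0 J)) {β ξ : J} (h : β < ξ) (m : ℕ) :
    Nice (Vd RR' ξ) ξ (gen β m) := by
  refine ⟨Set.range fun s : List ℕ => sgl β (s ++ [m]), ?_, Set.countable_range _, ?_⟩
  · rintro _ ⟨s, rfl⟩
    exact sgl_mem RR' h _
  · ext w
    simp only [gen, Set.mem_ofPred_eq, Set.mem_iUnion, Set.mem_range, exists_prop,
      exists_exists_eq_and]
    constructor
    · rintro ⟨n, hn⟩
      refine ⟨pre (w.2 β) n, (mem_bs_sgl h _).2 ?_⟩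
      rw [List.length_append, length_pre, List.length_singleton, pre_succ, hn]
    · rintro ⟨s, hs⟩
      have h1 := (mem_bs_sgl h _).1 hs
      rw [List.length_append, List.length_singleton, pre_succ] at h1
      have h2 := List.append_inj h1 (by simp)
      exact ⟨s.length, by simpa using h2.2.symm⟩

theorem gb_sub (tw : Set J) (RR' : J → Set (Pr K0 J)) (ξ : J) : Gb tw ξ ⊆ NN (Vd RR' ξ) ξ := by
  rintro _ ⟨β, _, hβ, rfl⟩ m
  exact nice_gen RR' hβ m

theorem Nice.op {B : Set (Rep K0 J)} {ξ : J} {U : Set (Om K0 J)} (h : Nice B ξ U) : Op B ξ U := by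
  obtain ⟨C, hC, _, rfl⟩ := h
  intro w hw
  simp only [Set.mem_iUnion, exists_prop] at hw
  obtain ⟨q, hq, hw⟩ := hw
  exact ⟨q, hC hq, hw, Set.subset_biUnion_of_mem (u := fun q => bs q ξ) hq⟩

variable [WellFoundedLT J]

/-- the names of the ultrafilters -/
noncomputable abbrev Uf (tw : Set J) (ξ : J) : Set (ℕ → Set (Om K0 J)) :=
  UU (Vd (RR tw) ξ) ξ (Gb tw ξ)

theorem mem_RR {tw : Set J} {ξ : J} {R : Pr K0 J} :
    R ∈ RR tw ξ ↔ ξ ∈ tw ∧ ∀ s, R s ∈ Uf tw ξ := by
  rw [RR_eq]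
  rfl

theorem fip_gb {tw : Set J} {ξ : J} (hG : ∀ ζ < ξ, Good (RR tw) ζ)
    (hU : ∀ ζ < ξ, IsMaxU (Vd (RR tw) ζ) ζ (Gb tw ζ) (Uf tw ζ)) :
    FIP (Vd (RR tw) ξ) ξ (Gb tw ξ) := by
  classical
  intro F hF q hq N
  rcases F.eq_empty_or_nonempty with rfl | hne
  · exact ⟨q, hq, le_rfl, N, le_rfl, fun A hA => absurd hA (Finset.notMem_empty A)⟩
  have : Nonempty J := ⟨ξ⟩
  choose! b hb1 hb2 hb3 using hF
  have hne' : (F.image b).Nonempty := by
    obtain ⟨A, hA⟩ := hne
    exact ⟨b A, Finset.mem_image_of_mem b hA⟩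
  obtain ⟨β, hβ, hmax⟩ := (F.image b).exists_max_image id hne'
  obtain ⟨A0, hA0, rfl⟩ := Finset.mem_image.1 hβ
  set β := b A0 with hβdef
  have hβξ : β < ξ := hb2 A0 hA0
  have hβt : β ∈ tw := hb1 A0 hA0
  set F' : Finset (Pr K0 J) := q.pr β ∪ (F.filter fun A => b A < β).image fun A _ => A with hF'
  have hadm : ∀ R ∈ F', R ∈ RR tw β := by
    intro R hR
    rcases Finset.mem_union.1 hR with h | h
    · exact hq.1 β R h
    · obtain ⟨A, hA, rfl⟩ := Finset.mem_image.1 h
      obtain ⟨hA1, hA2⟩ := Finset.mem_filter.1 hA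
      refine mem_RR.2 ⟨hβt, fun _ => (hU β hβξ).1 ⟨b A, hb1 A hA1, hA2, hb3 A hA1⟩⟩
  obtain ⟨q'', hq'', hle, m, hm, h⟩ := (hG β hβξ).amal F' hadm (q.st β) (res q β) (res_mem hq.1 β) N
  refine ⟨push (glue q'' q β) β m, push_mem (glue_mem hq'' hq hβξ.le) hβξ m, ?_, m, hm, ?_⟩
  · refine le_trans (push_le fun R hR => ?_) (glue_le hle)
    rw [glue_pr_ge le_rfl] at hR
    rw [glue_st_ge le_rfl, bs_glue le_rfl]
    exact h R (Finset.mem_union_left _ hR)
  · intro A hA w hw
    have hbA : b A ≤ β := hmax (b A) (Finset.mem_image_of_mem b hA)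
    rcases hbA.lt_or_eq with h1 | h1
    · have h2 : (fun _ : List ℕ => A) ∈ F' :=
        Finset.mem_union_right _ (Finset.mem_image.2 ⟨A, Finset.mem_filter.2 ⟨hA, h1⟩, rfl⟩)
      have h3 := bs_anti _ hβξ.le hw
      rw [bs_push _ m le_rfl, bs_glue le_rfl] at h3
      exact h _ h2 h3
    · rw [hb3 A hA, h1]
      have h3 := (hw.2 β hβξ).1
      rw [push_st_self, List.length_append, List.length_singleton, pre_succ] at h3
      have h4 := List.append_inj h3 (by simp)
      exact ⟨((glue q'' q β).st β).length, by simpa using h4.2.symm⟩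

theorem good_and_max (tw : Set J) (ξ : J) :
    Good (RR tw) ξ ∧ IsMaxU (Vd (RR tw) ξ) ξ (Gb tw ξ) (Uf tw ξ) := by
  classical
  induction ξ using WellFoundedLT.induction with
  | ind ξ IH =>
    have hU : IsMaxU (Vd (RR tw) ξ) ξ (Gb tw ξ) (Uf tw ξ) :=
      isMaxU_UU (exists_isMaxU (gb_sub tw _ ξ)
        (fip_gb (fun ζ hζ => (IH ζ hζ).1) fun ζ hζ => (IH ζ hζ).2))
    refine ⟨⟨fun R hR s m => ?_, fun F hF s q hq N => ?_⟩, hU⟩
    · exact (hU.2.1 ((mem_RR.1 hR).2 s) m).op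
    · obtain ⟨q', h1, h2, m, h3, h4⟩ := hU.2.2.1 (F.image fun R => R s)
        (fun A hA => by
          obtain ⟨R, hR, rfl⟩ := Finset.mem_image.1 hA
          exact (mem_RR.1 (hF R hR)).2 s) q hq N
      exact ⟨q', h1, h2, m, h3, fun R hR => h4 (R s) (Finset.mem_image_of_mem _ hR)⟩

theorem good (tw : Set J) (ξ : J) : Good (RR tw) ξ := (good_and_max tw ξ).1

theorem isMaxU (tw : Set J) (ξ : J) : IsMaxU (Vd (RR tw) ξ) ξ (Gb tw ξ) (Uf tw ξ) :=
  (good_and_max tw ξ).2

end Pool.Agent.H739.RM
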