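import Pool.Agent.H739.RM.Defs

/-!
# Few subsets of `W`

In the task file the theorem `list` had no hypothesis `1 < #L`; it is false for `#L = #P = 1`.
-/

set_option autoImplicit false

namespace Pool.Agent.H739.RM

open Pool.Agent.Helper539.SGIter Pool.Agent.Helper539.SPForcing Cardinal

/-- a countable set is coded by a sequence of options -/
theorem exists_code {P : Type} {C : Set P} (hC : C.Countable) :
    ∃ f : ℕ → Option P, C = {q | ∃ n, f n = some q} := by
  rcases C.eq_empty_or_nonempty with h | h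
  · refine ⟨fun _ => none, ?_⟩
    rw [h]
    ext q
    simp
  · obtain ⟨g, hg⟩ := hC.exists_eq_range h
    refine ⟨fun n => some (g n), ?_⟩
    rw [hg]
    ext q
    simp

/-- the number of codes -/
theorem card_codes {P W L : Type} [Infinite W] (hP : #P ≤ #L) (hL : #L ^ #W = #L) (h1 : 1 < #L) :
    #(W → ℕ → Option P) ≤ #L := by
  have hW : ℵ₀ ≤ #W := Cardinal.aleph0_le_mk W
  have h2 : (2 : Cardinal) ≤ #L := by
    have h3 : Nontrivial L := Cardinal.one_lt_iff_nontrivial.1 h1
    rw [Cardinal.two_le_iff]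
    exact exists_pair_ne L
  have hLinf : ℵ₀ ≤ #L := by
    rw [← hL]
    calc ℵ₀ ≤ (2 : Cardinal) ^ (ℵ₀ : Cardinal) := (Cardinal.cantor ℵ₀).le
      _ ≤ (2 : Cardinal) ^ #W := Cardinal.power_le_power_left two_ne_zero hW
      _ ≤ #L ^ #W := Cardinal.power_le_power_right h2
  have hO : #(Option P) ≤ #L := by
    rw [Cardinal.mk_option]
    exact Cardinal.add_le_of_le hLinf hP (Cardinal.one_le_aleph0.trans hLinf)
  calc #(W → ℕ → Option P) = (#(Option P) ^ ℵ₀) ^ #W := by
        rw [Cardinal.mk_pi, Cardinal.prod_const', Cardinal.mk_pi, Cardinal.prod_const', Cardinal.mk_nat]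
    _ ≤ (#L ^ ℵ₀) ^ #W := Cardinal.power_le_power_right (Cardinal.power_le_power_right hO)
    _ = #L ^ (ℵ₀ * #W) := by rw [Cardinal.power_mul]
    _ = #L ^ #W := by rw [Cardinal.aleph0_mul_eq hW]
    _ = #L := hL

/-- TASK F (few subsets of `W`). -/
theorem list {P : Type} [Preorder P]
    (hcc : ∀ D : Set P, ∃ C ⊆ D, C.Countable ∧ ∀ q ∈ D, ∃ r ∈ C, ∃ s, s ≤ q ∧ s ≤ r)
    {W L : Type} [Infinite W] (hP : #P ≤ #L) (hL : #L ^ #W = #L) (h1 : 1 < #L) :
    ∃ E : L → W → Set P, ∀ p : P, p ∈ FList E := by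
  obtain ⟨⟨g, hg⟩⟩ := (Cardinal.le_def _ _).1 (card_codes (P := P) (W := W) hP hL h1)
  have hsurj : Function.Surjective (Function.invFun g) := Function.invFun_surjective hg
  refine ⟨fun x a => {q | ∃ n, Function.invFun g x a n = some q}, fun p => ?_⟩
  unfold FList
  rw [mem_fall]
  intro X
  choose C hCsub hCc hC using fun a : W => hcc (meets (X a))
  choose f hf using fun a : W => exists_code (hCc a)
  obtain ⟨x, hx⟩ := hsurj f
  refine mem_fex_of_mem x (down_fall fun a => down_fand (down_fimp _ _) (down_fimp _ _)) ?_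
  rw [mem_fall]
  intro a
  have hE : {q : P | ∃ n, Function.invFun g x a n = some q} = C a := by
    rw [hx, hf a]
  show p ∈ fand (fimp (meets (X a)) (meets {q : P | ∃ n, Function.invFun g x a n = some q}))
    (fimp (meets {q : P | ∃ n, Function.invFun g x a n = some q}) (meets (X a)))
  rw [hE, mem_fand, mem_fimp, mem_fimp]
  constructor
  · intro q _ hqX
    refine ⟨q, le_rfl, fun q' hq' => ?_⟩
    obtain ⟨r, hr, s, hs, hs'⟩ := hC a q' (down_meets _ q hqX q' hq')
    exact ⟨s, hs, r, hr, hs'⟩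
  · intro q _ hqC
    refine ⟨q, le_rfl, fun q' hq' => ?_⟩
    obtain ⟨r, hr, s, hs, hrs⟩ := hqC q' hq'
    obtain ⟨r', hr', t, ht, hr't⟩ := hCsub a hs r hrs
    exact ⟨r', hr'.trans hr, t, ht, hr't⟩

end Pool.Agent.H739.RM
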