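import Pool.Agent.H739.RM.Defs

/-!
# Task E: the Cohen reals are different
-/

set_option autoImplicit false

namespace Pool.Agent.H739.RM

open Pool.Agent.Helper539.SGIter Pool.Agent.Helper539.SPForcing Cardinal

section taskE

variable {J : Type} [LinearOrder J] [WellFoundedLT J] {tw : Set J}

/-- there are no promises at the Cohen coordinates -/
theorem taskE_pr {τ η : J} (hη : η ∉ tw) {r : Rep K0 J} (hr : r ∈ Vd (RR tw) τ) :
    r.pr η = ∅ := by
  rw [Finset.eq_empty_iff_forall_notMem]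
  intro R hR
  have h := hr.1 η R hR
  rw [RR_eq] at h
  exact hη h.1

theorem taskE_push {τ η : J} (hη : η ∉ tw) (hτ : η < τ) {r : Rep K0 J}
    (hr : r ∈ Vd (RR tw) τ) (m : ℕ) : push r η m ∈ Vd (RR tw) τ ∧ push r η m ≤ r := by
  refine ⟨push_mem hr hτ m, push_le fun R hR => ?_⟩
  rw [taskE_pr hη hr] at hR
  exact absurd hR (Finset.notMem_empty R)

theorem taskE_ext {τ η : J} (hη : η ∉ tw) (hτ : η < τ) {r : Rep K0 J}
    (hr : r ∈ Vd (RR tw) τ) (k : ℕ) : ∃ r' ∈ Vd (RR tw) τ, r' ≤ r ∧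
      (r'.st η).length = (r.st η).length + k ∧ ∀ ζ, ζ ≠ η → r'.st ζ = r.st ζ := by
  induction k with
  | zero => exact ⟨r, hr, le_rfl, rfl, fun _ _ => rfl⟩
  | succ k ih =>
    obtain ⟨r', h1, h2, h3, h4⟩ := ih
    obtain ⟨h5, h6⟩ := taskE_push hη hτ h1 0
    refine ⟨push r' η 0, h5, h6.trans h2, ?_, fun ζ hζ => ?_⟩
    · rw [push_st_self, List.length_append, h3, List.length_singleton]
      omega
    · rw [push_st_ne r' 0 hζ, h4 ζ hζ]

theorem taskE_getElem {l l' : List ℕ} (h : l <+: l') {n a : ℕ} (ha : l[n]? = some a) :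
    l'[n]? = some a := by
  obtain ⟨t, rfl⟩ := h
  obtain ⟨h1, -⟩ := List.getElem?_eq_some_iff.1 ha
  rw [List.getElem?_append_left h1, ha]

theorem taskE_append {l : List ℕ} {n a : ℕ} (h : l.length = n) : (l ++ [a])[n]? = some a := by
  subst h
  simp

/-- TASK E (Cohen reals). -/
theorem reals {J : Type} [LinearOrder J] [WellFoundedLT J] {tw : Set J} (hG : ∀ ξ, Good (RR tw) ξ)
    (τ : J) {L : Type} (κ : L → J) (hκ : Function.Injective κ) (hκτ : ∀ x, κ x < τ)
    (hκt : ∀ x, κ x ∉ tw) (p : PP tw τ) :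
    p ∈ FReals (fun (x : L) (n : ℕ) => {q : PP tw τ | (q.1.st (κ x))[n]? = some 1}) := by
  unfold FReals
  rw [mem_fall]
  intro x
  rw [mem_fall]
  intro y
  rw [mem_fimp]
  intro q _ hxy
  rw [mem_fground] at hxy
  have hne : κ x ≠ κ y := fun h => hxy (hκ h)
  obtain ⟨n, hn⟩ : ∃ n, n = max (q.1.st (κ x)).length (q.1.st (κ y)).length := ⟨_, rfl⟩
  obtain ⟨r1, a1, a2, a3, a4⟩ := taskE_ext (hκt x) (hκτ x) q.2 (n - (q.1.st (κ x)).length)
  obtain ⟨r2, b1, b2, b3, b4⟩ := taskE_ext (hκt y) (hκτ y) a1 (n - (q.1.st (κ y)).length)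
  obtain ⟨c1, c2⟩ := taskE_push (hκt x) (hκτ x) b1 1
  obtain ⟨d1, d2⟩ := taskE_push (hκt y) (hκτ y) c1 0
  have lx : (r2.st (κ x)).length = n := by
    rw [b4 _ hne, a3]
    have := le_max_left (q.1.st (κ x)).length (q.1.st (κ y)).length
    omega
  have ly : (r2.st (κ y)).length = n := by
    rw [b3, a4 _ (Ne.symm hne)]
    have := le_max_right (q.1.st (κ x)).length (q.1.st (κ y)).length
    omega
  have ex : ((push (push r2 (κ x) 1) (κ y) 0).st (κ x))[n]? = some 1 := by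
    rw [push_st_ne _ _ hne, push_st_self]
    exact taskE_append lx
  have ey : ((push (push r2 (κ x) 1) (κ y) 0).st (κ y))[n]? = some 0 := by
    rw [push_st_self, push_st_ne _ _ (Ne.symm hne)]
    exact taskE_append ly
  refine ⟨⟨push (push r2 (κ x) 1) (κ y) 0, d1⟩, d2.trans (c2.trans (b2.trans a2)), ?_⟩
  refine mem_fex_of_mem n (down_for _ _) ?_
  rw [mem_for]
  intro q' hq'
  refine ⟨q', le_rfl, Or.inl ⟨?_, ?_⟩⟩
  · refine meets_of_le (s := ⟨push (push r2 (κ x) 1) (κ y) 0, d1⟩) ?_ hq'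
    exact ex
  · intro q'' hq'' hm
    obtain ⟨r, hr, s, hs, hrs⟩ := hm q'' le_rfl
    have h1 : (r.1.st (κ y))[n]? = some 1 := taskE_getElem (le_st hrs (κ y)) hs
    have h2 : (r.1.st (κ y))[n]? = some 0 :=
      taskE_getElem (le_st (hr.trans (hq''.trans hq')) (κ y)) ey
    rw [h1] at h2
    simp at h2

end taskE

end Pool.Agent.H739.RM
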