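import Pool.Agent.H739.RM.Defs

/-!
# The number of conditions (task B of the project RM)
-/

set_option autoImplicit false

namespace Pool.Agent.H739.RM

open Pool.Agent.Helper539.SGIter Pool.Agent.Helper539.SPForcing Cardinal

namespace Sz

lemma finset_le {X : Type} {l : Cardinal.{0}} (h0 : ℵ₀ ≤ l) (h : #X ≤ l) : #(Finset X) ≤ l := by
  rcases finite_or_infinite X with hf | hi
  · exact (Cardinal.lt_aleph0_of_finite _).le.trans h0
  · rw [Cardinal.mk_finset_of_infinite]; exact h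

lemma option_le {X : Type} {l : Cardinal.{0}} (h0 : ℵ₀ ≤ l) (h : #X ≤ l) : #(Option X) ≤ l := by
  rw [Cardinal.mk_option]
  exact Cardinal.add_le_of_le h0 h (Cardinal.one_le_aleph0.trans h0)

lemma arrow_le {X I : Type} [Countable I] {l : Cardinal.{0}} (hl : l ^ ℵ₀ = l) (hl0 : l ≠ 0)
    (h : #X ≤ l) : #(I → X) ≤ l := by
  rw [← Cardinal.power_def]
  calc #X ^ #I ≤ l ^ #I := Cardinal.power_le_power_right h
    _ ≤ l ^ ℵ₀ := Cardinal.power_le_power_left hl0 Cardinal.mk_le_aleph0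
    _ = l := hl

variable {J : Type} [LinearOrder J]

lemma nice_le (B : Set (Rep K0 J)) (ξ : J) {l : Cardinal.{0}} (h0 : ℵ₀ ≤ l) (hl : l ^ ℵ₀ = l)
    (hB : #B ≤ l) : #{U : Set (Om K0 J) // Nice B ξ U} ≤ l := by
  have hl0 : l ≠ 0 := fun h => by
    rw [h] at h0
    exact absurd h0 (not_le.2 Cardinal.aleph0_pos)
  let f : (ℕ → Option B) → Set (Om K0 J) :=
    fun h => ⋃ n, {w | ∃ q : B, h n = some q ∧ w ∈ bs q.1 ξ}
  have hsub : {U : Set (Om K0 J) | Nice B ξ U} ⊆ Set.range f := by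
    rintro U ⟨C, hCB, hC, rfl⟩
    rcases C.eq_empty_or_nonempty with rfl | hne
    · exact ⟨fun _ => none, by ext w; simp [f]⟩
    · obtain ⟨g, hg⟩ := hC.exists_eq_range hne
      have hgB : ∀ n, g n ∈ B := fun n => hCB (hg ▸ Set.mem_range_self n)
      refine ⟨fun n => some ⟨g n, hgB n⟩, ?_⟩
      ext w
      simp only [f, Set.mem_iUnion, Set.mem_ofPred_eq, Option.some.injEq]
      constructor
      · rintro ⟨n, q, hq, hw⟩
        refine ⟨g n, by rw [hg]; exact Set.mem_range_self n, ?_⟩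
        rw [← hq] at hw
        exact hw
      · rintro ⟨q, hq, hw⟩
        rw [hg] at hq
        obtain ⟨n, rfl⟩ := hq
        exact ⟨n, ⟨g n, hgB n⟩, rfl, hw⟩
  calc #{U : Set (Om K0 J) // Nice B ξ U} ≤ #(Set.range f) := Cardinal.mk_le_mk_of_subset hsub
    _ ≤ #(ℕ → Option B) := Cardinal.mk_range_le
    _ ≤ l := arrow_le hl hl0 (option_le h0 hB)

lemma UU_sub (B : Set (Rep K0 J)) (ξ : J) (G : Set (ℕ → Set (Om K0 J))) : UU B ξ G ⊆ NN B ξ := by
  unfold UU
  split_ifs with h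
  · exact h.choose_spec.2.1
  · exact Set.empty_subset _

lemma step_le (tw : Set J) (B : Set (Rep K0 J)) (ξ : J) {l : Cardinal.{0}} (h0 : ℵ₀ ≤ l)
    (hl : l ^ ℵ₀ = l) (hB : #B ≤ l) : #(RStep tw B ξ) ≤ l := by
  have hl0 : l ≠ 0 := fun h => by
    rw [h] at h0
    exact absurd h0 (not_le.2 Cardinal.aleph0_pos)
  have h1 : #(List ℕ → ℕ → {U : Set (Om K0 J) // Nice B ξ U}) ≤ l :=
    arrow_le hl hl0 (arrow_le hl hl0 (nice_le B ξ h0 hl hB))
  refine le_trans ?_ h1
  refine Cardinal.mk_le_of_injective (f := fun R : RStep tw B ξ => fun s n =>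
    ⟨R.1 s n, UU_sub B ξ _ (R.2.2 s) n⟩) ?_
  intro R R' h
  apply Subtype.ext
  funext s n
  exact congrArg Subtype.val (congrFun (congrFun h s) n)

variable [WellFoundedLT J]

lemma size_step (tw : Set J) {l : Cardinal.{0}} (h0 : ℵ₀ ≤ l) (hl : l ^ ℵ₀ = l) (hJ : #J ≤ l)
    (ξ : J) (ih : ∀ η < ξ, #(Vd (RR tw) η) ≤ l) : #(Vd (RR tw) ξ) ≤ l := by
  classical
  let T : Set (Pr K0 J) := ⋃ η : Set.Iio ξ, RR tw η.1
  have hT : #T ≤ l := by
    refine (Cardinal.mk_iUnion_le _).trans ?_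
    refine Cardinal.mul_le_of_le h0 ((Cardinal.mk_set_le _).trans hJ) ?_
    refine ciSup_le' fun η => ?_
    rw [RR_eq]
    exact step_le tw _ _ h0 hl (ih η.1 η.2)
  let X : Type := J × List ℕ × Finset T
  have hX : #X ≤ l := by
    have h1 : #(List ℕ) ≤ l := Cardinal.mk_le_aleph0.trans h0
    have h2 : #(List ℕ × Finset T) ≤ l := by
      rw [Cardinal.mk_prod, Cardinal.lift_id, Cardinal.lift_id]
      exact Cardinal.mul_le_of_le h0 h1 (finset_le h0 hT)
    show #(J × List ℕ × Finset T) ≤ l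
    rw [Cardinal.mk_prod, Cardinal.lift_id, Cardinal.lift_id]
    exact Cardinal.mul_le_of_le h0 hJ h2
  refine le_trans ?_ (finset_le h0 hX)
  have hpr : ∀ r : Vd (RR tw) ξ, ∀ η, ∀ R ∈ r.1.pr η, R ∈ T := by
    intro r η R hR
    have hη : η < ξ := by
      by_contra hc
      rw [(r.2.2 η (not_lt.1 hc)).2] at hR
      exact absurd hR (Finset.notMem_empty R)
    exact Set.mem_iUnion.2 ⟨⟨η, hη⟩, r.2.1 η R hR⟩
  let F : Vd (RR tw) ξ → Finset X := fun r =>
    (show (supp r.1).Finite from r.1.fin).toFinset.image fun η =>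
      (η, r.1.st η, (r.1.pr η).subtype (· ∈ T))
  refine Cardinal.mk_le_of_injective (f := F) ?_
  have hback : ∀ r : Vd (RR tw) ξ, ∀ η,
      ((r.1.pr η).subtype (· ∈ T)).map (Function.Embedding.subtype _) = r.1.pr η := by
    intro r η
    rw [Finset.subtype_map]
    exact Finset.filter_true_of_mem fun R hR => hpr r η R hR
  have key : ∀ r r' : Vd (RR tw) ξ, F r = F r' → ∀ η ∈ supp r.1,
      r'.1.st η = r.1.st η ∧ r'.1.pr η = r.1.pr η := by
    intro r r' h η hη
    have h1 : (η, r.1.st η, (r.1.pr η).subtype (· ∈ T)) ∈ F r := by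
      refine Finset.mem_image.2 ⟨η, ?_, rfl⟩
      rw [Set.Finite.mem_toFinset]
      exact hη
    rw [h] at h1
    obtain ⟨η', -, h2⟩ := Finset.mem_image.1 h1
    simp only [Prod.mk.injEq] at h2
    obtain ⟨rfl, h3, h4⟩ := h2
    exact ⟨h3, by rw [← hback r' η', h4, hback r η']⟩
  have hns : ∀ (r : Rep K0 J) (η : J), η ∉ supp r → r.st η = [] ∧ r.pr η = ∅ := by
    intro r η hη
    simp only [supp, Set.mem_ofPred_eq, not_or, not_not] at hη
    exact hη
  intro r r' he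
  apply Subtype.ext
  apply Rep.ext
  · funext a
    exact a.elim
  · funext η
    by_cases hη : η ∈ supp r.1
    · exact (key r r' he η hη).1.symm
    · by_cases hη' : η ∈ supp r'.1
      · exact (key r' r he.symm η hη').1
      · rw [(hns _ _ hη).1, (hns _ _ hη').1]
  · funext η
    by_cases hη : η ∈ supp r.1
    · exact (key r r' he η hη).2.symm
    · by_cases hη' : η ∈ supp r'.1
      · exact (key r' r he.symm η hη').2
      · rw [(hns _ _ hη).2, (hns _ _ hη').2]

end Sz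

/-- TASK B (size). -/
theorem size {J : Type} [LinearOrder J] [WellFoundedLT J] (tw : Set J) (l : Cardinal.{0})
    (h0 : ℵ₀ ≤ l) (hl : l ^ ℵ₀ = l) (hJ : #J ≤ l) (ξ : J) : #(Vd (RR tw) ξ) ≤ l := by
  induction ξ using WellFoundedLT.induction with
  | ind ξ IH => exact Sz.size_step tw h0 hl hJ ξ IH

end Pool.Agent.H739.RM
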