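import Pool.Agent.H739.RM.Dom
import Pool.Agent.H739.RM.Ccc
import Pool.Agent.H739.RM.Size
import Pool.Agent.H739.RM.Reals
import Pool.Agent.H739.RM.List

/-!
# The principle is forced
-/

set_option autoImplicit false

namespace Pool.Agent.H739.RM

open Pool.Agent.Helper539.SGIter Pool.Agent.Helper539.SPForcing Cardinal

theorem down_ftower {P : Type} [Preorder P] {W : Type} [LinearOrder W] (T : W → ℕ → Set P) :
    Down (FTower T) :=
  down_fand (down_fall fun _ => down_fall fun _ => down_fimp _ _)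
    (down_fand (down_fall fun _ => down_InfSet _) (down_fall fun _ => down_fex _))

theorem down_fdom {P : Type} [Preorder P] {W : Type} (D : W → ℕ → ℕ → Set P) :
    Down (FDom D) :=
  down_fand (down_fall fun _ => down_IsFun _) (down_fall fun _ => down_fimp _ _)

theorem down_freals {P : Type} [Preorder P] {L : Type} (c : L → ℕ → Set P) :
    Down (FReals c) :=
  down_fall fun _ => down_fall fun _ => down_fimp _ _

theorem down_flist {P : Type} [Preorder P] {W L : Type} (E : L → W → Set P) :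
    Down (FList E) :=
  down_fall fun _ => down_fex _

theorem forces {J : Type} [LinearOrder J] [WellFoundedLT J] (tw : Set J) (τ : J)
    {W L : Type} [LinearOrder W] [Infinite W] (ι : W → J) (hι : StrictMono ι) (hτ : ∀ a, ι a < τ)
    (ht : ∀ a, ι a ∈ tw)
    (hcof : ∀ S : Set J, S.Countable → S ⊆ Set.Iio τ → ∃ a, ∀ β ∈ S, β < ι a)
    (κ : L → J) (hκ : Function.Injective κ) (hκτ : ∀ x, κ x < τ) (hκt : ∀ x, κ x ∉ tw)
    (hJ : #J ≤ #L) (hL : #L ^ #W = #L) (h2 : 2 ≤ #L) (p : PP tw τ) :
    p ∈ FPrinciple (PP tw τ) W L := by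
  have hcc : CC tw := fun ξ D hD => exists_cc ξ D hD
  have h1 : 1 < #L := Cardinal.one_lt_two.trans_le h2
  have hW : ℵ₀ ≤ #W := aleph0_le_mk W
  have hL0 : ℵ₀ ≤ #L := by
    calc ℵ₀ ≤ #W := hW
      _ ≤ 2 ^ #W := (cantor _).le
      _ ≤ #L ^ #W := Cardinal.power_le_power_right h2
      _ = #L := hL
  have hLc : #L ^ ℵ₀ = #L := by
    apply le_antisymm
    · calc #L ^ ℵ₀ ≤ #L ^ #W := Cardinal.power_le_power_left (by
            intro h; rw [h] at h1; exact absurd h1 (by simp)) hW
        _ = #L := hL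
    · exact Cardinal.self_le_power _ (one_le_aleph0)
  have hP : #(PP tw τ) ≤ #L := size tw (#L) hL0 hLc hJ τ
  obtain ⟨E, hE⟩ := list (P := PP tw τ) (W := W) (L := L) (fun D => by
    obtain ⟨C, hC1, hC2, hC3⟩ := hcc τ (Subtype.val '' D) (by
      rintro _ ⟨q, _, rfl⟩
      exact q.2)
    refine ⟨Subtype.val ⁻¹' C, ?_, hC2.preimage Subtype.val_injective, ?_⟩
    · intro q hq
      obtain ⟨q', hq', h⟩ := hC1 hq
      rwa [← Subtype.ext h]
    · intro q hq
      obtain ⟨r, hr, s, hs, h2, h3⟩ := hC3 q.1 ⟨q, hq, rfl⟩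
      obtain ⟨q', hq', h⟩ := hC1 hr
      exact ⟨q', by show q'.1 ∈ C; rw [h]; exact hr, ⟨s, hs⟩, h2, by
        show s ≤ q'.1
        rw [h]
        exact h3⟩) hP hL h1
  refine ⟨mem_fex_of_mem (TT tw τ ι) (down_ftower _) (tower hcc hτ hι ht hcof p),
    mem_fex_of_mem (DD tw τ ι) (down_fdom _) (dom hcc hτ ht hcof p),
    mem_fex_of_mem _ (down_freals _) (reals (fun ξ => good tw ξ) τ κ hκ hκτ hκt p),
    mem_fex_of_mem E (down_flist _) (hE p)⟩

/-- the order type `ω₁` -/
abbrev W1 : Type := (Cardinal.aleph 1).ord.ToType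

/-- the index set of the Cohen reals -/
abbrev Lam : Type := ((2 : Cardinal.{0}) ^ Cardinal.aleph 1).ord.ToType

/-- the coordinates: the Cohen coordinates, then the coordinates of the tower, then one more -/
abbrev JJ : Type := Lam ⊕ₗ WithTop W1

instance : WellFoundedLT JJ := by
  constructor
  exact Sum.lex_wf wellFounded_lt wellFounded_lt

theorem countable_iio (a : W1) : (Set.Iio a).Countable := by
  rw [← Cardinal.le_aleph0_iff_set_countable]
  have h := Cardinal.mk_Iio_ord_toType a
  rw [← Order.lt_succ_iff, succ_aleph0]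
  exact h

theorem exists_model : ∃ (P : Type) (_ : Preorder P) (W L : Type) (_ : LinearOrder W)
    (_ : WellFoundedLT W), Nonempty P ∧ (∀ a : W, (Set.Iio a).Countable) ∧
      ∀ p : P, p ∈ FPrinciple P W L := by
  have hWc : #W1 = aleph 1 := by simp
  have hLc : #Lam = (2 : Cardinal.{0}) ^ aleph 1 := by simp
  have hinf : Infinite W1 := by
    rw [Cardinal.infinite_iff, hWc]
    exact aleph0_le_aleph 1
  let ι : W1 → JJ := fun a => toLex (Sum.inr (a : WithTop W1))
  let κ : Lam → JJ := fun x => toLex (Sum.inl x)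
  let τ : JJ := toLex (Sum.inr ⊤)
  let tw : Set JJ := Set.range ι
  have hι : StrictMono ι := fun a b h => Sum.Lex.inr_lt_inr_iff.2 (WithTop.coe_lt_coe.2 h)
  have hτ : ∀ a, ι a < τ := fun a => Sum.Lex.inr_lt_inr_iff.2 (WithTop.coe_lt_top a)
  have hκ : Function.Injective κ := fun x y h => Sum.inl_injective (toLex.injective h)
  have hκτ : ∀ x, κ x < τ := fun x => Sum.Lex.inl_lt_inr _ _
  have hκt : ∀ x, κ x ∉ tw := by
    rintro x ⟨a, ha⟩
    exact absurd (toLex.injective ha) (by simp)
  have hcof : ∀ S : Set JJ, S.Countable → S ⊆ Set.Iio τ → ∃ a, ∀ β ∈ S, β < ι a := by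
    intro S hS hSτ
    have hT : (⋃ β ∈ S, {b : W1 | ι b = β}).Countable := hS.biUnion fun β _ => by
      refine Set.Subsingleton.countable ?_
      intro b hb b' hb'
      exact hι.injective (hb.trans hb'.symm)
    have hT' : (⋃ b ∈ (⋃ β ∈ S, {b : W1 | ι b = β}), Set.Iic b).Countable := by
      refine hT.biUnion fun b _ => ?_
      rw [← Set.Iio_insert]
      exact (countable_iio b).insert b
    have hne : ∃ a, a ∉ (⋃ b ∈ (⋃ β ∈ S, {b : W1 | ι b = β}), Set.Iic b) := by
      by_contra hcon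
      push Not at hcon
      have h2 : (Set.univ : Set W1).Countable := hT'.mono fun a _ => hcon a
      rw [← Cardinal.le_aleph0_iff_set_countable, Cardinal.mk_univ, hWc] at h2
      exact absurd h2 (not_le.2 (by
        rw [← aleph_zero]
        exact aleph_lt_aleph.2 (by simp)))
    obtain ⟨a, ha⟩ := hne
    refine ⟨a, fun β hβ => ?_⟩
    rcases h : ofLex β with x | y
    · have : β = κ x := by rw [← toLex_ofLex β, h]
      rw [this]
      exact Sum.Lex.inl_lt_inr _ _
    · have hβy : β = toLex (Sum.inr y) := by rw [← toLex_ofLex β, h]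
      induction y using WithTop.recTopCoe with
      | top =>
        have h3 := hSτ hβ
        rw [hβy] at h3
        exact absurd (show τ < τ from h3) (lt_irrefl _)
      | coe b =>
        have h4 : ι b = β := hβy.symm
        rw [← h4]
        refine hι ?_
        by_contra h5
        exact ha (Set.mem_biUnion (Set.mem_biUnion hβ (show b ∈ {b | ι b = β} from h4))
          (not_lt.1 h5))
  have h0 : ℵ₀ ≤ #Lam := by
    rw [hLc]
    exact (aleph0_le_aleph 1).trans (cantor _).le
  have hJ : #JJ ≤ #Lam := by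
    have e : #JJ = #Lam + #(WithTop W1) := by
      rw [show #JJ = #(Lam ⊕ WithTop W1) from rfl, mk_sum]
      simp
    rw [e]
    refine add_le_of_le h0 le_rfl ?_
    have e2 : #(WithTop W1) = #W1 + 1 := mk_option
    rw [e2]
    refine add_le_of_le h0 ?_ (one_le_aleph0.trans h0)
    rw [hWc, hLc]
    exact (cantor _).le
  have hL : #Lam ^ #W1 = #Lam := by
    rw [hLc, hWc, ← power_mul, mul_eq_self (aleph0_le_aleph 1)]
  refine ⟨PP tw τ, inferInstance, W1, Lam, inferInstance, inferInstance,
    ⟨⟨one K0 JJ, one_mem _ _⟩⟩, countable_iio, fun p => ?_⟩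
  exact forces tw τ ι hι hτ (fun a => ⟨a, rfl⟩) hcof κ hκ hκτ hκt hJ hL
    ((natCast_le_aleph0 (n := 2)).trans h0) p

end Pool.Agent.H739.RM
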