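import Pool.Agent.H739.RM.Defs
import Pool.Graph.R_pool_sql_team_seeded_b0a926ef.R590.RmCount
import Pool.Graph.R_pool_sql_team_seeded_b0a926ef.R590.RmTower

/-!
# The plain part: the principle implies that the remainders `R x` have different sizes
(board task 14519 for helper739)
-/

set_option autoImplicit false

namespace Pool.Agent.H739.RM

open Cardinal

namespace Plain

open Set Filter Pool.Agent.R590.Rm

variable {W : Type} [LinearOrder W]

/-- almost inclusion is transitive -/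
theorem sub_trans {A B C : Set ℕ} (h1 : (A \ B).Finite) (h2 : (B \ C).Finite) : (A \ C).Finite := by
  refine (h1.union h2).subset ?_
  intro k hk
  by_cases hB : k ∈ B
  · exact Or.inr ⟨hB, hk.2⟩
  · exact Or.inl ⟨hk.1, hB⟩

/-- the filter generated by a tower -/
def flt (A : W → Set ℕ) (hne : Nonempty W) (hA : ∀ a b, a ≤ b → (A b \ A a).Finite) : Filter ℕ where
  sets := {S | ∃ a, (A a \ S).Finite}
  univ_sets := by
    obtain ⟨a⟩ := hne
    exact ⟨a, by rw [sdiff_univ]; exact finite_empty⟩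
  sets_of_superset := by
    rintro S S' ⟨a, ha⟩ hS
    exact ⟨a, ha.subset (sdiff_subset_sdiff_right hS)⟩
  inter_sets := by
    rintro S S' ⟨a, ha⟩ ⟨b, hb⟩
    refine ⟨max a b, ?_⟩
    have h1 := sub_trans (hA a (max a b) (le_max_left _ _)) ha
    have h2 := sub_trans (hA b (max a b) (le_max_right _ _)) hb
    refine (h1.union h2).subset ?_
    rintro k ⟨hk1, hk2⟩
    by_cases hS : k ∈ S
    · exact Or.inr ⟨hk1, fun h => hk2 ⟨hS, h⟩⟩
    · exact Or.inl ⟨hk1, hS⟩

theorem mem_flt {A : W → Set ℕ} {hne : Nonempty W} {hA : ∀ a b, a ≤ b → (A b \ A a).Finite}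
    {S : Set ℕ} : S ∈ flt A hne hA ↔ ∃ a, (A a \ S).Finite := Iff.rfl

/-- the point generated by a tower -/
theorem exists_point (A : W → Set ℕ) (hne : Nonempty W) (hA : ∀ a b, a ≤ b → (A b \ A a).Finite)
    (hinf : ∀ a, (A a).Infinite) (hult : ∀ S : Set ℕ, ∃ a, (A a \ S).Finite ∨ (A a \ Sᶜ).Finite) :
    ∃ x : OmegaStar, ∀ S, S ∈ x.1 ↔ ∃ a, (A a \ S).Finite := by
  have hbot : ∅ ∉ flt A hne hA := by
    rintro ⟨a, ha⟩
    rw [sdiff_empty] at ha
    exact hinf a ha
  have hc : ∀ s, sᶜ ∉ flt A hne hA ↔ s ∈ flt A hne hA := by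
    intro s
    constructor
    · intro h
      obtain ⟨a, h1 | h1⟩ := hult s
      · exact ⟨a, h1⟩
      · exact absurd ⟨a, h1⟩ h
    · intro h h'
      apply hbot
      have := inter_mem h h'
      rwa [inter_compl_self] at this
  refine ⟨⟨Ultrafilter.ofComplNotMemIff (flt A hne hA) hc, ?_⟩, fun S => Iff.rfl⟩
  intro S hS
  obtain ⟨a⟩ := hne
  have h1 : Sᶜ.Finite := hS
  exact ⟨a, h1.subset fun k hk => hk.2⟩

end Plain

open Plain Set Filter in
open Pool.Agent.R590.Rm in
/-- the plain part: some remainder has at least two points, and many have exactly one -/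
theorem plain_strong (W L : Type) [LinearOrder W] [WellFoundedLT W]
    (hW : ∀ a : W, (Set.Iio a).Countable) (h : Principle W L) :
    (∃ x : OmegaStar, 2 ≤ #(R x)) ∧ #{y : OmegaStar // #(R y) = 1} = 2 ^ 𝔠 := by
  classical
  obtain ⟨⟨T, hT1, hT2, hT3⟩, ⟨D, hD⟩, ⟨c, hc⟩, ⟨E, hE⟩⟩ := h
  let A : W → Set ℕ := fun a => {n | T a n}
  have hlt : ∀ a b, a < b → (A b \ A a).Finite := by
    intro a b hab
    obtain ⟨N, hN⟩ := hT1 a b hab
    refine (finite_Iio N).subset ?_
    rintro n ⟨h1, h2⟩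
    by_contra h3
    exact h2 (hN n ⟨not_lt.1 h3, h1⟩)
  have hA : ∀ a b, a ≤ b → (A b \ A a).Finite := by
    intro a b hab
    rcases hab.lt_or_eq with h | h
    · exact hlt a b h
    · subst h
      rw [Set.sdiff_self]
      exact finite_empty
  have hinf : ∀ a, (A a).Infinite := by
    intro a
    rw [Set.infinite_iff_exists_gt]
    intro N
    obtain ⟨k, h1, h2⟩ := hT2 a (N + 1)
    exact ⟨k, h2, h1⟩
  have hult : ∀ S : Set ℕ, ∃ a, (A a \ S).Finite ∨ (A a \ Sᶜ).Finite := by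
    intro S
    obtain ⟨a, ⟨N, hN⟩ | ⟨N, hN⟩⟩ := hT3 (fun n => n ∈ S)
    · refine ⟨a, Or.inl ((finite_Iio N).subset ?_)⟩
      rintro n ⟨h1, h2⟩
      by_contra h3
      exact h2 (hN n ⟨not_lt.1 h3, h1⟩)
    · refine ⟨a, Or.inr ((finite_Iio N).subset ?_)⟩
      rintro n ⟨h1, h2⟩
      by_contra h3
      exact h2 (hN n ⟨not_lt.1 h3, h1⟩)
  have hne : Nonempty W := ⟨(hult ∅).choose⟩
  obtain ⟨x, hx⟩ := exists_point A hne hA hinf hult
  -- the strictly decreasing part
  let V : Set W := {a | ∀ b < a, (A b \ A a).Infinite}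
  have hV : ∀ a : W, ∃ b ∈ V, (A b \ A a).Finite := by
    intro a
    have hex : ({b : W | (A b \ A a).Finite} : Set W).Nonempty := ⟨a, hA a a le_rfl⟩
    refine ⟨(wellFounded_lt (α := W)).min _ hex, ?_, (wellFounded_lt (α := W)).min_mem _ hex⟩
    intro c hc hfin
    have h1 : (A c \ A a).Finite := sub_trans hfin ((wellFounded_lt (α := W)).min_mem _ hex)
    exact (wellFounded_lt (α := W)).not_lt_min {b : W | (A b \ A a).Finite} h1 hc
  have hx' : ∀ S, S ∈ x.1 ↔ ∃ i : V, (A i.1 \ S).Finite := by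
    intro S
    rw [hx]
    constructor
    · rintro ⟨a, ha⟩
      obtain ⟨b, hb, hb2⟩ := hV a
      exact ⟨⟨b, hb⟩, sub_trans hb2 ha⟩
    · rintro ⟨i, hi⟩
      exact ⟨i.1, hi⟩
  have hVn : NoMaxOrder V := by
    refine ⟨fun i => ?_⟩
    by_contra hcon
    push Not at hcon
    obtain ⟨H, h1, h2, h3⟩ := exists_split (hinf i.1)
    have hall : ∀ S, S ∈ x.1 → (A i.1 \ S).Finite := by
      intro S hS
      obtain ⟨j, hj⟩ := (hx' S).1 hS
      exact sub_trans (hA j.1 i.1 (hcon j)) hj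
    rcases x.1.mem_or_compl_mem H with h4 | h4
    · exact h3 (hall H h4)
    · refine h2 ((hall _ h4).subset ?_)
      intro k hk
      exact ⟨h1 hk, fun h => h hk⟩
  have hVw : ∀ i : V, (Iio i).Countable := by
    intro i
    refine ((hW i.1).preimage (f := Subtype.val) Subtype.val_injective).mono ?_
    intro j hj
    exact hj
  have htwo := tower_two (W := V) hVw (fun i => A i.1)
    (fun i j hij => ⟨hlt i.1 j.1 hij, j.2 i.1 hij⟩) x hx'
  -- a dominating family
  have hdom : Dominating (range D) := by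
    intro g
    obtain ⟨a, N, hN⟩ := hD g
    refine ⟨D a, mem_range_self a, (finite_Iio N).subset ?_⟩
    intro n hn
    by_contra h3
    exact absurd (hN n (not_lt.1 h3)) (not_le.2 hn)
  have hc1 : #L ≤ 𝔠 := by
    have hinj : Function.Injective (fun x : L => {n : ℕ | c x n}) := by
      intro x y hxy
      by_contra hne
      obtain ⟨n, hn⟩ := hc x y hne
      have h1 : c x n ↔ c y n := Set.ext_iff.1 hxy n
      rcases hn with ⟨h2, h3⟩ | ⟨h2, h3⟩
      · exact h3 (h1.1 h2)
      · exact h2 (h1.2 h3)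
    refine (Cardinal.mk_le_of_injective hinj).trans ?_
    rw [Cardinal.mk_set, Cardinal.mk_nat, Cardinal.two_power_aleph0]
  have hc2 : (2 : Cardinal.{0}) ^ #W ≤ #L := by
    have hsurj : Function.Surjective (fun x : L => {a : W | E x a}) := by
      intro X
      obtain ⟨y, hy⟩ := hE (fun a => a ∈ X)
      exact ⟨y, Set.ext fun a => ⟨(hy a).2, (hy a).1⟩⟩
    have := Cardinal.mk_le_of_surjective hsurj
    rwa [Cardinal.mk_set] at this
  have hc3 : (2 : Cardinal.{0}) ^ #(range D) < 2 ^ 𝔠 := by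
    have h1 : #(range D) ≤ #W := Cardinal.mk_range_le
    have h2 : (2 : Cardinal.{0}) ^ #(range D) ≤ 2 ^ #W := Cardinal.power_le_power_left two_ne_zero h1
    exact (h2.trans (hc2.trans hc1)).trans_lt (Cardinal.cantor 𝔠)
  have hone := card_one hdom hc3
  obtain ⟨p, hp, q, hq, hpq⟩ := htwo
  refine ⟨⟨x, ?_⟩, hone⟩
  rw [Cardinal.two_le_iff]
  exact ⟨⟨p, hp⟩, ⟨q, hq⟩, fun h => hpq (congrArg Subtype.val h)⟩

open Pool.Agent.R590.Rm in
/-- the plain part: the cardinality of the remainder depends on the point -/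
theorem plain (W L : Type) [LinearOrder W] [WellFoundedLT W] (hW : ∀ a : W, (Set.Iio a).Countable)
    (h : Principle W L) : ∃ x y : OmegaStar, #(R x) ≠ #(R y) := by
  obtain ⟨⟨x, hx⟩, hone⟩ := plain_strong W L hW h
  have hney : Nonempty {y : OmegaStar // #(R y) = 1} := by
    rw [← Cardinal.mk_ne_zero_iff, hone]
    exact (Cardinal.cantor 𝔠).ne_bot
  obtain ⟨y, hy⟩ := hney
  refine ⟨x, y, fun h1 => ?_⟩
  rw [h1, hy] at hx
  exact absurd hx (not_le.2 Cardinal.one_lt_two)

end Pool.Agent.H739.RM
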