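import Pool.Agent.H739.RM.Good

/-!
# The generic tower
-/

set_option autoImplicit false

namespace Pool.Agent.H739.RM

open Pool.Agent.Helper539.SGIter Pool.Agent.Helper539.SPForcing Cardinal

variable {J : Type} [LinearOrder J] [WellFoundedLT J]

/-- the countable chain condition -/
def CC (tw : Set J) : Prop := ∀ (ξ : J) (D : Set (Rep K0 J)), D ⊆ Vd (RR tw) ξ →
  ∃ C ⊆ D, C.Countable ∧ ∀ q ∈ D, ∃ r ∈ C, ∃ s ∈ Vd (RR tw) ξ, s ≤ q ∧ s ≤ r

variable {tw : Set J}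

/-- two valid conditions below `β` with no common extension are obeyed by no common point -/
theorem disj_of_incompat {β : J} {r e : Rep K0 J} (hr : r ∈ Vd (RR tw) β) (he : e ∈ Vd (RR tw) β)
    (h : ¬ ∃ s ∈ Vd (RR tw) β, s ≤ r ∧ s ≤ e) {w : Om K0 J} (h1 : w ∈ bs r β) (h2 : w ∈ bs e β) :
    False := by
  obtain ⟨q, hq, h3, h4, _⟩ := compat_of_point (fun ζ _ => good tw ζ) hr he h1 h2
  exact h ⟨q, hq, h3, h4⟩

/-- a union of basic sets covering a condition is dense below it -/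
theorem dense_of_cover {β τ : J} (hβ : β ≤ τ) {r : Rep K0 J} (hr : r ∈ Vd (RR tw) τ)
    {C : Set (Rep K0 J)} (hC : C ⊆ Vd (RR tw) β) (h : bs r β ⊆ ⋃ q ∈ C, bs q β) :
    ∃ t ∈ Vd (RR tw) τ, t ≤ r ∧ ∃ q ∈ C, t ≤ q := by
  obtain ⟨w, hw⟩ := bs_nonempty (fun ζ _ => good tw ζ) hr
  have h1 := h (hw β)
  simp only [Set.mem_iUnion, exists_prop] at h1
  obtain ⟨q, hq, h2⟩ := h1
  have h3 : w ∈ bs q τ := by rw [bs_below (hC hq).2 hβ]; exact h2
  obtain ⟨t, ht, h4, h5, _⟩ := compat_of_point (fun ζ _ => good tw ζ) hr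
    (Vd_mono hβ (hC hq)) (hw τ) h3
  exact ⟨t, ht, h4, q, hq, h5⟩

/-- a criterion for membership in the name of the ultrafilter -/
theorem mem_uf {β : J} {A : ℕ → Set (Om K0 J)} (hA : A ∈ NN (Vd (RR tw) β) β)
    (h : ∀ q0 ∈ Vd (RR tw) β, ∃ q1 ∈ Vd (RR tw) β, q1 ≤ q0 ∧ ∃ N1, ∀ m, N1 ≤ m → bs q1 β ⊆ A m) :
    A ∈ Uf tw β := by
  classical
  refine (isMaxU tw β).2.2.2 A hA fun F hF q0 hq0 N => ?_
  obtain ⟨q1, hq1, hle, N1, h1⟩ := h q0 hq0
  obtain ⟨q', hq', hle', m, hm, h2⟩ := (isMaxU tw β).2.2.1 (F.filter (· ∈ Uf tw β))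
    (fun A' hA' => (Finset.mem_filter.1 hA').2) q1 hq1 (max N N1)
  refine ⟨q', hq', hle'.trans hle, m, (le_max_left _ _).trans hm, fun A' hA' => ?_⟩
  rcases hF A' hA' with rfl | h3
  · exact (bs_le hle' β).trans (h1 m ((le_max_right _ _).trans hm))
  · exact h2 A' (Finset.mem_filter.2 ⟨hA', h3⟩)

/-- what it means not to be in the name of the ultrafilter -/
theorem notMem_uf {β : J} {A : ℕ → Set (Om K0 J)} (hA : A ∈ NN (Vd (RR tw) β) β)
    (h : A ∉ Uf tw β) : ∃ F : Finset (ℕ → Set (Om K0 J)), (∀ A' ∈ F, A' ∈ Uf tw β) ∧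
      ∃ q0 ∈ Vd (RR tw) β, ∃ N0, ∀ q' ∈ Vd (RR tw) β, q' ≤ q0 → ∀ m, N0 ≤ m →
        (∀ A' ∈ F, bs q' β ⊆ A' m) → ¬ bs q' β ⊆ A m := by
  classical
  have h1 : ¬ FIP (Vd (RR tw) β) β (insert A (Uf tw β)) := fun h' => h ((isMaxU tw β).2.2.2 A hA h')
  unfold FIP at h1
  push Not at h1
  obtain ⟨F, hF, q0, hq0, N0, h2⟩ := h1
  refine ⟨F.filter (· ∈ Uf tw β), fun A' hA' => (Finset.mem_filter.1 hA').2, q0, hq0, N0,
    fun q' hq' hle m hm h3 h4 => ?_⟩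
  obtain ⟨A', hA', h5⟩ := h2 q' hq' hle m hm
  rcases hF A' hA' with rfl | h6
  · exact h5 h4
  · exact h5 (h3 A' (Finset.mem_filter.2 ⟨hA', h6⟩))

section tower

variable {τ : J} {W : Type} [LinearOrder W] (ι : W → J)

/-- the name of the generic set at `ι a` -/
def TT (tw : Set J) (τ : J) (ι : W → J) (a : W) (n : ℕ) : Set (PP tw τ) := {q | n ∈ q.1.st (ι a)}

/-- the name of the generic sequence at `ι a` -/
def DD (tw : Set J) (τ : J) (ι : W → J) (a : W) (n m : ℕ) : Set (PP tw τ) :=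
  {q | (q.1.st (ι a))[n]? = some m}

variable {ι}

/-- a condition forcing that `n` is in the generic set has an extension with `n` in the stem -/
theorem TT_of_meets {a : W} {n : ℕ} {s : PP tw τ} (h : s ∈ meets (TT tw τ ι a n)) :
    ∃ r ≤ s, n ∈ r.1.st (ι a) := by
  obtain ⟨r, hr, t, ht, hle⟩ := h s le_rfl
  exact ⟨r, hr, (le_st (show r.1 ≤ t.1 from hle) (ι a)).subset ht⟩

theorem DD_of_meets {a : W} {n m : ℕ} {s : PP tw τ} (h : s ∈ meets (DD tw τ ι a n m)) :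
    ∃ r ≤ s, (r.1.st (ι a))[n]? = some m := by
  obtain ⟨r, hr, t, ht, hle⟩ := h s le_rfl
  refine ⟨r, hr, ?_⟩
  have h1 : (t.1.st (ι a))[n]? = some m := ht
  obtain ⟨l, hl⟩ := le_st (show r.1 ≤ t.1 from hle) (ι a)
  rw [← hl, List.getElem?_append_left (List.getElem?_eq_some_iff.1 h1).1]
  exact h1

/-- an element of the stem which is large is new -/
theorem exists_new {q r : Rep K0 J} (h : r ≤ q) {β : J} {n : ℕ} (hn : n ∈ r.st β)
    (hnew : ∀ k ∈ q.st β, k < n) :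
    ∃ s, s ++ [n] <+: r.st β ∧ (q.st β).length ≤ s.length := by
  obtain ⟨l1, l2, hl⟩ := List.append_of_mem hn
  have h1 : l1 ++ [n] <+: r.st β := ⟨l2, by rw [hl]; simp⟩
  refine ⟨l1, h1, ?_⟩
  by_contra hlt
  have h2 : l1 ++ [n] <+: q.st β :=
    List.prefix_of_prefix_length_le h1 (le_st h β) (by simp; omega)
  have h3 : n ∈ q.st β := h2.subset (by simp)
  exact absurd (hnew n h3) (lt_irrefl n)

theorem exists_bound (l : List ℕ) : ∃ N, ∀ k ∈ l, k < N := by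
  induction l with
  | nil => exact ⟨0, by simp⟩
  | cons a l ih =>
    obtain ⟨N, hN⟩ := ih
    refine ⟨max N (a + 1), fun k hk => ?_⟩
    rcases List.mem_cons.1 hk with rfl | hk
    · exact lt_of_lt_of_le (Nat.lt_succ_self k) (le_max_right _ _)
    · exact lt_of_lt_of_le (hN k hk) (le_max_left _ _)

theorem tt_inf (hτ : ∀ a, ι a < τ) (a : W) (p : PP tw τ) : p ∈ InfSet (TT tw τ ι a) := by
  intro N
  refine mem_fex.2 fun q _ => ?_
  obtain ⟨q'', hq'', hle, m, hm, h⟩ := (good tw (ι a)).amal (q.1.pr (ι a)) (q.2.1 (ι a))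
    (q.1.st (ι a)) (res q.1 (ι a)) (res_mem q.2.1 (ι a)) N
  refine ⟨⟨push (glue q'' q.1 (ι a)) (ι a) m, push_mem (glue_mem hq'' q.2 (hτ a).le) (hτ a) m⟩,
    ?_, m, hm, meets_of_mem ?_⟩
  · show push (glue q'' q.1 (ι a)) (ι a) m ≤ q.1
    refine le_trans (push_le fun R hR => ?_) (glue_le hle)
    rw [glue_pr_ge le_rfl] at hR
    rw [glue_st_ge le_rfl, bs_glue le_rfl]
    exact h R hR
  · show m ∈ (push (glue q'' q.1 (ι a)) (ι a) m).st (ι a)
    rw [push_st_self]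
    simp

theorem tt_dec (hτ : ∀ a, ι a < τ) (hι : StrictMono ι) (ht : ∀ a, ι a ∈ tw) {a b : W}
    (hab : a < b) (q : PP tw τ) :
    ∃ r ≤ q, r ∈ AlmSub (TT tw τ ι b) (TT tw τ ι a) := by
  classical
  have hR : (fun _ : List ℕ => gen (ι a)) ∈ RR tw (ι b) :=
    mem_RR.2 ⟨ht b, fun _ => (isMaxU tw (ι b)).1 ⟨ι a, ht a, hι hab, rfl⟩⟩
  let q1 : PP tw τ := ⟨addP q.1 (ι b) {fun _ => gen (ι a)}, addP_mem q.2 (hτ b) (by
    intro R hR'
    rw [Finset.mem_singleton.1 hR']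
    exact hR)⟩
  refine ⟨q1, addP_le _ _ _, ?_⟩
  obtain ⟨N, hN⟩ := exists_bound (q.1.st (ι b))
  refine mem_fex_of_mem N (down_fall fun _ => down_fimp _ _) fun n => mem_fimp.2 ?_
  rintro s hs ⟨hn, hs'⟩
  obtain ⟨r, hr, hnr⟩ := TT_of_meets hs'
  have hrq : r.1 ≤ q1.1 := le_trans hr hs
  obtain ⟨l, hl1, hl2⟩ := exists_new hrq hnr (fun k hk => lt_of_lt_of_le (hN k hk) hn)
  have h1 : bs r.1 (ι b) ⊆ gen (ι a) n :=
    le_new hrq ((addP_pr_self q.1 (ι b) _).2 (Finset.mem_singleton_self _)) hl1 hl2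
  refine ⟨r, hr, fun t htr => ?_⟩
  obtain ⟨w, hw⟩ := bs_nonempty (fun ζ _ => good tw ζ) t.2
  obtain ⟨k, hk⟩ := h1 (bs_le (show t.1 ≤ r.1 from htr) (ι b) (hw (ι b)))
  have h2 : w ∈ bs (sgl (ι a) (pre (w.2 (ι a)) (k + 1))) τ :=
    (mem_bs_sgl (hτ a) _).2 (by simp)
  obtain ⟨u, hu, h3, h4, _⟩ := compat_of_point (fun ζ _ => good tw ζ) t.2
    (sgl_mem (RR tw) (hτ a) _) (hw τ) h2
  refine ⟨⟨u, hu⟩, h3, ⟨u, hu⟩, ?_, le_rfl⟩
  show n ∈ u.st (ι a)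
  refine (le_st h4 (ι a)).subset ?_
  simp only [sgl, Function.update_self]
  rw [pre_succ, hk]
  simp

/-- countably many conditions are below some `ι a` -/
theorem exists_capture (hcof : ∀ S : Set J, S.Countable → S ⊆ Set.Iio τ → ∃ a, ∀ β ∈ S, β < ι a)
    (C : Set (Rep K0 J)) (hC : C.Countable) (hC' : C ⊆ Vd (RR tw) τ) :
    ∃ a, C ⊆ Vd (RR tw) (ι a) := by
  obtain ⟨a, ha⟩ := hcof (⋃ r ∈ C, supp r)
    (hC.biUnion fun r _ => (show (supp r).Finite from r.fin).countable) (by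
      intro η hη
      simp only [Set.mem_iUnion, exists_prop] at hη
      obtain ⟨r, hr, hη⟩ := hη
      by_contra h
      obtain ⟨h1, h2⟩ := (hC' hr).2 η (not_lt.1 h)
      rcases hη with h3 | h3
      · exact h3 h1
      · exact h3 h2)
  refine ⟨a, fun r hr => ⟨(hC' hr).1, fun η hη => ?_⟩⟩
  refine notMem_supp fun h => ?_
  exact absurd (ha η (Set.mem_biUnion hr h)) (not_lt.2 hη)

/-- an element `r` of the forcing notion below `q` is covered by `U` if it is covered by `U` and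
conditions incompatible with `q` -/
theorem cover_of_union {β : J} {q r : Rep K0 J} (hq : Adm (RR tw) q) (hr : Adm (RR tw) r)
    (hle : r ≤ q) {E : Set (Rep K0 J)} (hE : ∀ e ∈ E, e ∈ Vd (RR tw) β ∧
      ¬ ∃ s ∈ Vd (RR tw) β, s ≤ res q β ∧ s ≤ e) {U : Set (Om K0 J)}
    (h : bs r β ⊆ U ∪ ⋃ e ∈ E, bs e β) : bs r β ⊆ U := by
  intro w hw
  rcases h hw with h1 | h1
  · exact h1
  · simp only [Set.mem_iUnion, exists_prop] at h1
    obtain ⟨e, he, h2⟩ := h1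
    have h3 : w ∈ bs (res q β) β := by
      rw [bs_res le_rfl]
      exact bs_le hle β hw
    exact (disj_of_incompat (res_mem hq β) (hE e he).1 (hE e he).2 h3 h2).elim

theorem nice_union {B : Set (Rep K0 J)} {β : J} {C E : Set (Rep K0 J)} (hC : C ⊆ B)
    (hCc : C.Countable) (hE : E ⊆ B) (hEc : E.Countable) :
    Nice B β ((⋃ r ∈ C, bs r β) ∪ ⋃ e ∈ E, bs e β) :=
  ⟨C ∪ E, Set.union_subset hC hE, hCc.union hEc, by rw [Set.biUnion_union]⟩

theorem tt_decide (hcc : CC tw) (hτ : ∀ a, ι a < τ) (ht : ∀ a, ι a ∈ tw)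
    (hcof : ∀ S : Set J, S.Countable → S ⊆ Set.Iio τ → ∃ a, ∀ β ∈ S, β < ι a)
    (X : ℕ → Set (PP tw τ)) (q : PP tw τ) :
    ∃ r ≤ q, ∃ a, r ∈ AlmSub (TT tw τ ι a) X ∨ r ∈ AlmDisj (TT tw τ ι a) X := by
  classical
  -- the conditions forcing `n ∈ X`
  let X' : ℕ → Set (Rep K0 J) := fun n => {r | ∃ h : r ∈ Vd (RR tw) τ, (⟨r, h⟩ : PP tw τ) ∈ meets (X n)}
  have hX' : ∀ n, X' n ⊆ Vd (RR tw) τ := fun n r hr => hr.1
  choose C hCX hCc hCd using fun n => hcc τ (X' n) (hX' n)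
  obtain ⟨a, ha⟩ := exists_capture hcof (⋃ n, C n) (Set.countable_iUnion hCc)
    (Set.iUnion_subset fun n => (hCX n).trans (hX' n))
  have hCa : ∀ n, C n ⊆ Vd (RR tw) (ι a) := fun n => (Set.subset_iUnion C n).trans ha
  set β := ι a with hβ
  have hβτ : β < τ := hτ a
  obtain ⟨E, hED, hEc, hEd⟩ := hcc β
    {r | r ∈ Vd (RR tw) β ∧ ¬ ∃ s ∈ Vd (RR tw) β, s ≤ res q.1 β ∧ s ≤ r} (fun r hr => hr.1)
  -- the facts about `Y`
  have F1 : ∀ (n : ℕ) (t : PP tw τ), bs t.1 β ⊆ (⋃ r ∈ C n, bs r β) → t ∈ meets (X n) := by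
    intro n t h
    refine meets_of_dense fun t' ht' => ?_
    obtain ⟨u, hu, h1, r, hr, h2⟩ := dense_of_cover hβτ.le t'.2 (hCa n)
      ((bs_le (show t'.1 ≤ t.1 from ht') β).trans h)
    obtain ⟨hrV, hrX⟩ := hCX n hr
    exact ⟨⟨u, hu⟩, h1, down_meets _ _ hrX _ h2⟩
  have F2 : ∀ (n : ℕ) (t : PP tw τ), t ∈ meets (X n) →
      ∃ t' ≤ t, bs t'.1 β ⊆ ⋃ r ∈ C n, bs r β := by
    intro n t h
    obtain ⟨r, hr, s, hs, h1, h2⟩ := hCd n t.1 ⟨t.2, h⟩
    exact ⟨⟨s, hs⟩, h1, (bs_le h2 β).trans (Set.subset_biUnion_of_mem (u := fun r => bs r β) hr)⟩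
  let A : ℕ → Set (Om K0 J) := fun m => (⋃ r ∈ C m, bs r β) ∪ ⋃ e ∈ E, bs e β
  have hA : A ∈ NN (Vd (RR tw) β) β := fun m =>
    nice_union (hCa m) (hCc m) (fun e he => (hED he).1) hEc
  by_cases hAU : A ∈ Uf tw β
  · -- the promise decides that the generic set is almost contained in `X`
    let q1 : PP tw τ := ⟨addP q.1 β {fun _ => A}, addP_mem q.2 hβτ (by
      intro R hR'
      rw [Finset.mem_singleton.1 hR']
      exact mem_RR.2 ⟨ht a, fun _ => hAU⟩)⟩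
    have hq1 : q1.1 ≤ q.1 := addP_le _ _ _
    refine ⟨q1, hq1, a, Or.inl ?_⟩
    obtain ⟨N, hN⟩ := exists_bound (q.1.st β)
    refine mem_fex_of_mem N (down_fall fun _ => down_fimp _ _) fun n => mem_fimp.2 ?_
    rintro s hs ⟨hn, hs'⟩
    obtain ⟨r, hr, hnr⟩ := TT_of_meets hs'
    have hrq : r.1 ≤ q1.1 := le_trans hr hs
    obtain ⟨l, hl1, hl2⟩ := exists_new hrq hnr (fun k hk => lt_of_lt_of_le (hN k hk) hn)
    have h1 : bs r.1 β ⊆ A n :=
      le_new hrq ((addP_pr_self q.1 β _).2 (Finset.mem_singleton_self _)) hl1 hl2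
    exact ⟨r, hr, F1 n r (cover_of_union q.2.1 r.2.1 (hrq.trans hq1) (fun e he => hED he) h1)⟩
  · obtain ⟨F, hF, q0, hq0, N0, h0⟩ := notMem_uf hA hAU
    -- `q0` is compatible with `q`
    have hcomp : ∃ s ∈ Vd (RR tw) β, s ≤ res q.1 β ∧ s ≤ q0 := by
      by_contra hinc
      obtain ⟨e, he, s, hs, h1, h2⟩ := hEd q0 ⟨hq0, hinc⟩
      obtain ⟨q', hq', hle, m, hm, h3⟩ := (isMaxU tw β).2.2.1 F hF s hs N0
      refine h0 q' hq' (hle.trans h1) m hm h3 (fun w hw => Or.inr ?_)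
      exact Set.mem_biUnion he (bs_le (hle.trans h2) β hw)
    obtain ⟨q2, hq2, hq2q, hq20⟩ := hcomp
    let q3 : PP tw τ := ⟨addP (glue q2 q.1 β) β (F.image fun A _ => A),
      addP_mem (glue_mem hq2 q.2 hβτ.le) hβτ (by
        intro R hR'
        obtain ⟨A', hA', rfl⟩ := Finset.mem_image.1 hR'
        exact mem_RR.2 ⟨ht a, fun _ => hF A' hA'⟩)⟩
    have hq3 : q3.1 ≤ q.1 := (addP_le _ _ _).trans (glue_le hq2q)
    have hq32 : q3.1 ≤ q2 := (addP_le _ _ _).trans (glue_le_left hq2.2)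
    refine ⟨q3, hq3, a, Or.inr ?_⟩
    obtain ⟨N, hN⟩ := exists_bound (q3.1.st β)
    refine mem_fex_of_mem (max N N0) (down_fall fun _ => down_fimp _ _) fun n => mem_fimp.2 ?_
    rintro s hs ⟨hn, hs'⟩
    have hn : max N N0 ≤ n := hn
    obtain ⟨r, hr, hnr⟩ := TT_of_meets hs'
    have hrq : r.1 ≤ q3.1 := le_trans hr hs
    obtain ⟨l, hl1, hl2⟩ := exists_new hrq hnr
      (fun k hk => lt_of_lt_of_le (hN k hk) ((le_max_left _ _).trans hn))
    refine ⟨r, hr, fun t htr htX => ?_⟩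
    obtain ⟨t', ht', hcov⟩ := F2 n t htX
    have ht'r : t'.1 ≤ r.1 := le_trans ht' htr
    refine h0 (res t'.1 β) (res_mem t'.2.1 β)
      (le_trans (res_le (ht'r.trans (hrq.trans hq32)) hq2.2) hq20) n
      ((le_max_right _ _).trans hn) (fun A' hA' => ?_) ?_
    · rw [bs_res le_rfl]
      refine (bs_le ht'r β).trans (le_new (R := fun _ => A') hrq ?_ hl1 hl2)
      exact (addP_pr_self _ β _).2 (Finset.mem_image_of_mem _ hA')
    · rw [bs_res le_rfl]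
      exact hcov.trans Set.subset_union_left

theorem tower (hcc : CC tw) (hτ : ∀ a, ι a < τ) (hι : StrictMono ι) (ht : ∀ a, ι a ∈ tw)
    (hcof : ∀ S : Set J, S.Countable → S ⊆ Set.Iio τ → ∃ a, ∀ β ∈ S, β < ι a) (p : PP tw τ) :
    p ∈ FTower (TT tw τ ι) := by
  refine ⟨fun a b => mem_fimp.2 fun q _ hab => ?_, fun a => tt_inf hτ a p, fun X =>
    mem_fex.2 fun q _ => ?_⟩
  · exact tt_dec hτ hι ht hab q
  · obtain ⟨r, hr, a, h⟩ := tt_decide hcc hτ ht hcof X q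
    refine ⟨r, hr, a, mem_for.2 fun s hs => ⟨s, le_rfl, ?_⟩⟩
    rcases h with h | h
    · exact Or.inl (down_fex _ _ h _ hs)
    · exact Or.inr (down_fex _ _ h _ hs)

end tower

end Pool.Agent.H739.RM
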