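import Pool.Agent.H739.RM.Defs

set_option autoImplicit false

namespace Pool.Agent.H739.RM

open Pool.Agent.Helper539.SGIter Pool.Agent.Helper539.SPForcing Cardinal

namespace Triv

theorem le_u (p q : Unit) : p ≤ q := le_of_eq (Subsingleton.elim p q)

theorem m_u {A : Set Unit} (p q : Unit) : p ∈ A ↔ q ∈ A := by
  cases p; cases q; exact Iff.rfl

theorem m_fnot (φ : Set Unit) (p : Unit) : p ∈ fnot φ ↔ ¬ p ∈ φ :=
  ⟨fun h => h p le_rfl, fun h q _ hq => h ((m_u q p).1 hq)⟩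

theorem m_fand (φ ψ : Set Unit) (p : Unit) : p ∈ fand φ ψ ↔ (p ∈ φ ∧ p ∈ ψ) := Iff.rfl

theorem m_fall {ι : Sort*} (φ : ι → Set Unit) (p : Unit) : p ∈ fall φ ↔ ∀ i, p ∈ φ i := Iff.rfl

theorem m_fground (h : Prop) (p : Unit) : p ∈ fground (P := Unit) h ↔ h := Iff.rfl

theorem m_fex {ι : Sort*} (φ : ι → Set Unit) (p : Unit) : p ∈ fex φ ↔ ∃ i, p ∈ φ i := by
  rw [mem_fex]
  constructor
  · intro h
    obtain ⟨r, _, i, hi⟩ := h p le_rfl
    exact ⟨i, (m_u r p).1 hi⟩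
  · rintro ⟨i, hi⟩ q _
    exact ⟨q, le_rfl, i, (m_u p q).1 hi⟩

theorem m_fimp (φ ψ : Set Unit) (p : Unit) : p ∈ fimp φ ψ ↔ (p ∈ φ → p ∈ ψ) := by
  rw [mem_fimp]
  constructor
  · intro h hp
    obtain ⟨r, _, hr⟩ := h p le_rfl hp
    exact (m_u r p).1 hr
  · intro h q _ hq
    exact ⟨q, le_rfl, (m_u p q).1 (h ((m_u q p).1 hq))⟩

theorem m_for (φ ψ : Set Unit) (p : Unit) : p ∈ for' φ ψ ↔ (p ∈ φ ∨ p ∈ ψ) := by
  rw [mem_for]
  constructor
  · intro h
    obtain ⟨r, _, hr⟩ := h p le_rfl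
    rcases hr with hr | hr
    · exact Or.inl ((m_u r p).1 hr)
    · exact Or.inr ((m_u r p).1 hr)
  · intro h q _
    refine ⟨q, le_rfl, ?_⟩
    rcases h with hr | hr
    · exact Or.inl ((m_u p q).1 hr)
    · exact Or.inr ((m_u p q).1 hr)

theorem m_meets (N : Set Unit) (p : Unit) : p ∈ meets N ↔ p ∈ N := by
  constructor
  · intro h
    obtain ⟨r, _, s, hs, _⟩ := h p le_rfl
    exact (m_u s p).1 hs
  · intro h q _
    exact ⟨q, le_rfl, q, (m_u p q).1 h, le_rfl⟩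

end Triv

open Triv

theorem trivial_iff (W L : Type) [LinearOrder W] (p : Unit) :
    p ∈ FPrinciple Unit W L ↔ Principle W L := by
  simp only [FPrinciple, Principle, FTower, FDom, FReals, FList, AlmSub, AlmDisj,
    Pool.Agent.Helper539.SPForcing.InfSet, IsFun,
    m_fand, m_fall, m_fex, m_fimp, m_for, m_meets, m_fnot, m_fground]
  refine and_congr ?_ (and_congr ?_ (and_congr ?_ ?_))
  · constructor
    · rintro ⟨T, h1, h2, h3⟩
      refine ⟨fun a n => p ∈ T a n, h1, h2, fun X => ?_⟩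
      exact h3 fun n => {_q | X n}
    · rintro ⟨T, h1, h2, h3⟩
      refine ⟨fun a n => {_q | T a n}, h1, h2, fun X => ?_⟩
      exact h3 fun n => p ∈ X n
  · constructor
    · rintro ⟨D, h1, h2⟩
      have h3 : ∀ a n, ∃ m, p ∈ D a n m := fun a n => (h1 a).1 n
      choose d hd using h3
      refine ⟨d, fun F => ?_⟩
      obtain ⟨a, N, h⟩ := h2 (fun n k => {_q | F n = k})
        ⟨fun n => ⟨F n, rfl⟩, fun n k k' hk => Eq.trans (Eq.symm hk.1) hk.2⟩
      exact ⟨a, N, fun n hn => h n (F n) (d a n) ⟨hn, rfl, hd a n⟩⟩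
    · rintro ⟨D, h⟩
      refine ⟨fun a n m => {_q | D a n = m}, fun a => ⟨fun n => ⟨D a n, rfl⟩,
        fun n k k' hk => Eq.trans (Eq.symm hk.1) hk.2⟩, fun F hF => ?_⟩
      choose f hf using hF.1
      obtain ⟨a, N, h4⟩ := h f
      refine ⟨a, N, fun n k m hkm => ?_⟩
      have h5 : k = f n := hF.2 n k (f n) ⟨hkm.2.1, hf n⟩
      have h6 : D a n = m := hkm.2.2
      rw [h5, ← h6]
      exact h4 n hkm.1
  · constructor
    · rintro ⟨c, h⟩
      exact ⟨fun x n => p ∈ c x n, h⟩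
    · rintro ⟨c, h⟩
      exact ⟨fun x n => {_q | c x n}, h⟩
  · constructor
    · rintro ⟨E, h⟩
      exact ⟨fun x a => p ∈ E x a, fun X => h fun a => {_q | X a}⟩
    · rintro ⟨E, h⟩
      exact ⟨fun x a => {_q | E x a}, fun X => h fun a => p ∈ X a⟩

end Pool.Agent.H739.RM
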